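import Mathlib
import Pool.Agent.Lib.MP_1e3e9c_agF.FDefs

/-!
# MP_1e3e9c_ag, project C (complete intersections): definitions

`LCI`, `gr`, `wdm`, `dm`, `HasRat`, `Same`, `val` are those of project R (`RDefs.lean`, `XDefs.lean`, `ZDefs.lean`), `Gc` that of project M (`MDefs.lean`),
`mnr`, `Cnl` those of project F (`FDefs.lean`).
-/

set_option autoImplicit false

namespace Pool.Agent.Lib.MP_1e3e9c_agC

open Pool.Agent.Lib.MP_1e3e9c_agR Pool.Agent.Lib.MP_1e3e9c_agM Pool.Agent.Lib.MP_1e3e9c_agF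

/-- The equations over the field `Ω`. -/
noncomputable def oS {k : Type} (Ω : Type) [Field k] [Field Ω] [Algebra k Ω] {n : ℕ}
    (S : Set (MvPolynomial (Fin (n + 1)) k)) : Set (MvPolynomial (Fin (n + 1)) Ω) :=
  MvPolynomial.map (algebraMap k Ω) '' S

/-- The point `y` over `k` is a specialisation of `x`. -/
def Spz {k Ω U : Type} [Field k] [Field Ω] [Algebra k Ω] (x : U → Ω) (y : U → k) : Prop :=
  ∀ H : MvPolynomial U k, MvPolynomial.aeval x H = 0 → MvPolynomial.eval y H = 0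

/-- `x` is a good point of the zero set `W` of `S`: `W` is smooth at `x`, of codimension `c`, `O(1)` is a line bundle at `x`, and
`ψ` generates the determinant of the conormal bundle, twisted by `O(e)`, at `x`. -/
structure Gd {k : Type} [Field k] {n : ℕ} (w : Fin (n + 1) → ℕ)
    (S : Set (MvPolynomial (Fin (n + 1)) k)) (c : ℕ)
    (ψ : (Fin c → Fin (n + 1)) → MvPolynomial (Fin (n + 1)) k) (x : Fin (n + 1) → k) : Prop where
  lci : LCI S c x
  gc : Gc w x
  eq : ∀ P : Fin c → MvPolynomial (Fin (n + 1)) k, (∀ l, P l ∈ S) → ∀ i j,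
    MvPolynomial.eval x (ψ i) * MvPolynomial.eval x (mnr P j) =
      MvPolynomial.eval x (ψ j) * MvPolynomial.eval x (mnr P i)
  ne : ∃ j, MvPolynomial.eval x (ψ j) ≠ 0

/-- `ψ ∧ dG` -/
noncomputable def ext {k : Type} [Field k] {n c : ℕ}
    (ψ : (Fin c → Fin (n + 1)) → MvPolynomial (Fin (n + 1)) k)
    (G : MvPolynomial (Fin (n + 1)) k) (j : Fin (c + 1) → Fin (n + 1)) :
    MvPolynomial (Fin (n + 1)) k :=
  ∑ b : Fin (c + 1), (-1) ^ (b : ℕ) * MvPolynomial.pderiv (j b) G * ψ fun i => j (b.succAbove i)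

/-- At the point `x` the vectors of the `c`-minors of elements of `S` are multiples of `ψ(x)` and the `(c+1)`-minors vanish. -/
def InvAt {k : Type} [Field k] {n : ℕ} (S : Set (MvPolynomial (Fin (n + 1)) k)) (c : ℕ)
    (ψ : (Fin c → Fin (n + 1)) → MvPolynomial (Fin (n + 1)) k) (x : Fin (n + 1) → k) : Prop :=
  (∀ P : Fin c → MvPolynomial (Fin (n + 1)) k, (∀ l, P l ∈ S) → ∃ a : k, ∀ j,
    MvPolynomial.eval x (mnr P j) = a * MvPolynomial.eval x (ψ j)) ∧
  ∀ P : Fin (c + 1) → MvPolynomial (Fin (n + 1)) k, (∀ l, P l ∈ S) → ∀ j,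
    MvPolynomial.eval x (mnr P j) = 0

/-- The generic member `G_j + (∑_α τ_(j,α) M_(j,α)) G₀` of the linear system. -/
noncomputable def gG {k Ω : Type} [Field k] [Field Ω] [Algebra k Ω] {n s N : ℕ}
    (τ : Fin s × Fin N → Ω) (G₀ : MvPolynomial (Fin (n + 1)) k)
    (G : Fin s → MvPolynomial (Fin (n + 1)) k) (M : Fin s → Fin N → MvPolynomial (Fin (n + 1)) k)
    (j : Fin s) : MvPolynomial (Fin (n + 1)) Ω :=
  MvPolynomial.map (algebraMap k Ω) (G j) +
    (∑ α, MvPolynomial.C (τ (j, α)) * MvPolynomial.map (algebraMap k Ω) (M j α)) *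
      MvPolynomial.map (algebraMap k Ω) G₀

end Pool.Agent.Lib.MP_1e3e9c_agC
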