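import Mathlib
import Pool.Agent.Lib.MP_1e3e9c_agC.CDefs

/-!
# MP_1e3e9c_ag, project C, leaf C1: the minors of the equations at a smooth point

PROOF. First part of `InvAt`: with `ψ i (x) ≠ 0` (`hne`): `eval x (mnr P j) = (eval x (mnr P i) / eval x (ψ i)) * eval x (ψ j)` for all `j`, by `heq`. Second part: by `LCI S c x` the gradient of every `Q ∈ S` at `x` is a combination of the gradients of the `c` polynomials `P l` of `LCI` (differentiate `h * Q = ∑ h_l * P_l` at `x`,
where `Q(x) = P_l(x) = 0`, `h(x) ≠ 0`), so the rows of the `(c + 1) × (c + 1)` matrix of the `pderiv (j b) (P' a)` at `x` are linearly dependent (`c + 1` vectors in the span of `c` vectors) and the determinant is `0`.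
-/

set_option autoImplicit false

namespace Pool.Agent.Lib.MP_1e3e9c_agC

open Pool.Agent.Lib.MP_1e3e9c_agR Pool.Agent.Lib.MP_1e3e9c_agM Pool.Agent.Lib.MP_1e3e9c_agF

theorem inv_of_lci {k : Type} [Field k] {n c : ℕ} {S : Set (MvPolynomial (Fin (n + 1)) k)}
    {ψ : (Fin c → Fin (n + 1)) → MvPolynomial (Fin (n + 1)) k} {x : Fin (n + 1) → k}
    (hx : ∀ P ∈ S, MvPolynomial.eval x P = 0) (hl : LCI S c x)
    (heq : ∀ P : Fin c → MvPolynomial (Fin (n + 1)) k, (∀ l, P l ∈ S) → ∀ i j,
      MvPolynomial.eval x (ψ i) * MvPolynomial.eval x (mnr P j) =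
        MvPolynomial.eval x (ψ j) * MvPolynomial.eval x (mnr P i))
    (hne : ∃ j, MvPolynomial.eval x (ψ j) ≠ 0) : InvAt S c ψ x := by
  refine ⟨fun P hP => ?_, fun P' hP' j => ?_⟩
  · obtain ⟨i, hi⟩ := hne
    refine ⟨MvPolynomial.eval x (mnr P i) / MvPolynomial.eval x (ψ i), fun j => ?_⟩
    have h1 := heq P hP i j
    field_simp
    linear_combination h1
  · obtain ⟨P, hP, -, hS⟩ := hl
    have key : ∀ Q ∈ S, ∃ a : Fin c → k, ∀ i : Fin (n + 1),
        MvPolynomial.eval x (MvPolynomial.pderiv i Q) =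
          ∑ l, a l * MvPolynomial.eval x (MvPolynomial.pderiv i (P l)) := by
      intro Q hQ
      obtain ⟨h, hh, hm⟩ := hS Q hQ
      obtain ⟨a, ha⟩ := (Ideal.mem_span_range_iff_exists_fun).1 hm
      refine ⟨fun l => MvPolynomial.eval x (a l) / MvPolynomial.eval x h, fun i => ?_⟩
      have h1 : MvPolynomial.eval x (MvPolynomial.pderiv i (∑ l, a l * P l)) =
          MvPolynomial.eval x (MvPolynomial.pderiv i (h * Q)) := by rw [ha]
      rw [map_sum, map_sum, Derivation.leibniz, map_add, smul_eq_mul, smul_eq_mul, map_mul, map_mul,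
        hx Q hQ, zero_mul, add_zero] at h1
      have h2 : ∀ l, MvPolynomial.eval x (MvPolynomial.pderiv i (a l * P l)) =
          MvPolynomial.eval x (a l) * MvPolynomial.eval x (MvPolynomial.pderiv i (P l)) := by
        intro l
        rw [Derivation.leibniz, map_add, smul_eq_mul, smul_eq_mul, map_mul, map_mul,
          hx (P l) (hP l), zero_mul, add_zero]
      simp only [h2] at h1
      apply mul_left_cancel₀ hh
      rw [← h1, Finset.mul_sum]
      refine Finset.sum_congr rfl fun l _ => ?_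
      field_simp
    choose a ha using fun l : Fin (c + 1) => key (P' l) (hP' l)
    unfold mnr
    rw [RingHom.map_det]
    obtain ⟨A, hA⟩ : ∃ A : Matrix (Fin (c + 1)) (Fin c) k, A = Matrix.of a := ⟨_, rfl⟩
    obtain ⟨B, hB⟩ : ∃ B : Matrix (Fin c) (Fin (c + 1)) k, B = Matrix.of fun l b =>
      MvPolynomial.eval x (MvPolynomial.pderiv (j b) (P l)) := ⟨_, rfl⟩
    have hAB : (RingHom.mapMatrix (MvPolynomial.eval x)) (Matrix.of fun a b : Fin (c + 1) =>
        MvPolynomial.pderiv (j b) (P' a)) = A * B := by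
      ext u v
      rw [RingHom.mapMatrix_apply, Matrix.map_apply, Matrix.of_apply, ha, Matrix.mul_apply, hA, hB]
      rfl
    rw [hAB]
    by_contra hdet
    have h1 : IsUnit (A * B) := (Matrix.isUnit_iff_isUnit_det _).2 (isUnit_iff_ne_zero.2 hdet)
    have h2 := Matrix.rank_of_isUnit _ h1
    have h3 := Matrix.rank_mul_le_left A B
    have h4 := Matrix.rank_le_width A
    rw [h2, Fintype.card_fin] at h3
    omega

end Pool.Agent.Lib.MP_1e3e9c_agC
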