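import Mathlib

/-!
# MP_1e3e9c_ag, project C, leaf C9: a transcendence degree (MATHLIB ONLY)

PROOF. For every `j` choose `α_j` with `b j α_j ≠ 0`. Let `T = {τ (j, α) | α ≠ α_j}`, a set with at most `s (N - 1)` elements (`s = 0`: nothing to prove; `s ≥ 1`: `N ≥ 1`). By `h`, `τ (j, α_j) = - (a j + ∑ α ≠ α_j, τ (j, α) b j α) / b j α_j` is in the field `K(T)`. So `K(T)` contains the `s N` algebraically independent elements `τ u`:
`s N ≤ trdeg k K(T) = trdeg k K + trdeg K K(T) ≤ trdeg k K + s (N - 1)` (`trdeg_add_eq`, `Algebra.trdeg`, `AlgebraicIndependent.cardinalMk_le_trdeg`, `IntermediateField.adjoin`; `trdeg K K(T) ≤ #T`: `trdeg_le_cardinalMk`, or exchange). If `trdeg k K` is infinite the claim is clear (`Cardinal`: `(s : Cardinal) ≤ ℵ₀ ≤ ..`), otherwise subtract the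
natural number `s (N - 1)`. The team library has the submodular function `T` (transcendence degree of sets, values in `ℕ∞`): Pool/Agent/Lib/MP_1e3e9c_agS/DimA.lean (imports of that file are allowed if it helps).
-/

set_option autoImplicit false

namespace Pool.Agent.Lib.MP_1e3e9c_agC

private theorem C9_adj {K Ω ι : Type} [Field K] [Field Ω] [Algebra K Ω] [Fintype ι] (y : ι → Ω) :
    Algebra.trdeg K (IntermediateField.adjoin K (Set.range y)) ≤ (Fintype.card ι : Cardinal) := by
  open scoped IntermediateField.algebraAdjoinAdjoin in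
  have h1 : Algebra.trdeg K (Algebra.adjoin K (Set.range y)) ≤ (Fintype.card ι : Cardinal) := by
    rw [Algebra.adjoin_range_eq_range_aeval]
    have h2 := _root_.trdeg_le_of_surjective (MvPolynomial.aeval (R := K) y).rangeRestrict
      (AlgHom.rangeRestrict_surjective _)
    rw [MvPolynomial.trdeg_of_isDomain, Cardinal.lift_id, Cardinal.mk_fintype] at h2
    exact h2
  have h3 := _root_.trdeg_add_eq K (Algebra.adjoin K (Set.range y)) (A := IntermediateField.adjoin K (Set.range y))
  have h4 : Algebra.trdeg (Algebra.adjoin K (Set.range y)) (IntermediateField.adjoin K (Set.range y)) = 0 :=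
    _root_.trdeg_eq_zero
  rw [h4, add_zero] at h3
  rw [← h3]
  exact h1

private theorem C9_card {s N : ℕ} (α : Fin s → Fin N) :
    Fintype.card {p : Fin s × Fin N // ¬ p.2 = α p.1} + s = s * N := by
  have h1 : Fintype.card {p : Fin s × Fin N // p.2 = α p.1} = s := by
    have e : {p : Fin s × Fin N // p.2 = α p.1} ≃ Fin s :=
      { toFun := fun p => p.1.1
        invFun := fun j => ⟨(j, α j), rfl⟩
        left_inv := fun p => Subtype.ext (Prod.ext rfl p.2.symm)
        right_inv := fun j => rfl }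
    rw [Fintype.card_congr e, Fintype.card_fin]
  have h2 := Fintype.card_subtype_compl (fun p : Fin s × Fin N => p.2 = α p.1)
  have h3 := Fintype.card_subtype_le (fun p : Fin s × Fin N => p.2 = α p.1)
  rw [h1, Fintype.card_prod, Fintype.card_fin, Fintype.card_fin] at h2
  rw [h1, Fintype.card_prod, Fintype.card_fin, Fintype.card_fin] at h3
  omega

theorem trdeg_le {k Ω : Type} [Field k] [Field Ω] [Algebra k Ω] {s N : ℕ}
    (τ : Fin s × Fin N → Ω) (hτ : AlgebraicIndependent k τ) (K : IntermediateField k Ω)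
    (a : Fin s → Ω) (b : Fin s → Fin N → Ω) (ha : ∀ j, a j ∈ K) (hb : ∀ j α, b j α ∈ K)
    (hne : ∀ j, ∃ α, b j α ≠ 0) (h : ∀ j, a j + ∑ α, τ (j, α) * b j α = 0) :
    (s : Cardinal) ≤ Algebra.trdeg k K := by
  classical
  choose α hα using hne
  obtain ⟨y, hy⟩ : ∃ y : {p : Fin s × Fin N // ¬ p.2 = α p.1} → Ω, y = fun p => τ p.1 := ⟨_, rfl⟩
  obtain ⟨L, hL⟩ : ∃ L : IntermediateField K Ω, L = IntermediateField.adjoin K (Set.range y) := ⟨_, rfl⟩
  have hLd : Algebra.trdeg K L ≤ (Fintype.card {p : Fin s × Fin N // ¬ p.2 = α p.1} : Cardinal) := by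
    rw [hL]
    exact C9_adj y
  have hKL : ∀ z ∈ K, z ∈ L := fun z hz => L.algebraMap_mem ⟨z, hz⟩
  have hyL : ∀ p : Fin s × Fin N, ¬ p.2 = α p.1 → τ p ∈ L := by
    intro p hp
    rw [hL]
    refine IntermediateField.subset_adjoin _ _ ⟨⟨p, hp⟩, ?_⟩
    rw [hy]
  have hτL : ∀ p, τ p ∈ L := by
    rintro ⟨j, β⟩
    by_cases hβ : β = α j
    · rw [hβ]
      have h1 := h j
      rw [← Finset.add_sum_erase _ _ (Finset.mem_univ (α j))] at h1
      have h2 : τ (j, α j) = - (a j + ∑ γ ∈ Finset.univ.erase (α j), τ (j, γ) * b j γ) / b j (α j) := by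
        rw [eq_div_iff (hα j)]
        linear_combination h1
      rw [h2]
      refine L.div_mem (L.neg_mem (L.add_mem (hKL _ (ha j)) (L.sum_mem fun γ hγ => ?_))) (hKL _ (hb j _))
      exact L.mul_mem (hyL (j, γ) (Finset.ne_of_mem_erase hγ)) (hKL _ (hb j γ))
    · exact hyL (j, β) hβ
  obtain ⟨t, ht⟩ : ∃ t : Fin s × Fin N → L, t = fun p => ⟨τ p, hτL p⟩ := ⟨_, rfl⟩
  have hsc : IsScalarTower k L Ω := IsScalarTower.of_algebraMap_eq fun x => rfl
  have htk : AlgebraicIndependent k t := by
    have h1 : τ = (IsScalarTower.toAlgHom k L Ω) ∘ t := by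
      rw [ht]
      rfl
    rw [h1] at hτ
    exact AlgebraicIndependent.of_comp _ hτ
  have h1 := htk.cardinalMk_le_trdeg
  rw [Cardinal.mk_fintype, Fintype.card_prod, Fintype.card_fin, Fintype.card_fin] at h1
  have h2 := _root_.trdeg_add_eq k K (A := L)
  have h3 := C9_card α
  rw [← h2] at h1
  by_contra hcon
  rw [not_le] at hcon
  obtain ⟨m, hm⟩ := Cardinal.lt_aleph0.1 (hcon.trans (Cardinal.natCast_lt_aleph0 (n := s)))
  rw [hm] at h1 hcon
  have h4 := h1.trans (add_le_add_right hLd _)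
  norm_cast at h4 hcon
  omega

end Pool.Agent.Lib.MP_1e3e9c_agC
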