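import Mathlib
import Pool.Agent.Lib.MP_1e3e9c_agC.CDefs
import Pool.Agent.Lib.MP_1e3e9c_agC.C9

/-!
# MP_1e3e9c_ag, project C, leaf C10: the generic complete intersection avoids a set of dimension `< s`

`wdm w B ≤ s`: the closure of the cone over `B` has dimension `≤ s`.
PROOF. Let `x i₀ ≠ 0`, `b ∈ Ω` with `b ^ w i₀ = (x i₀)⁻¹` (`Ω` algebraically closed, `0 < w i₀`), `x' i = b ^ w i * x i`, so `x' i₀ = 1`. By weighted homogeneity (`M j α * G₀` has weight `g j`) `G₀(x') ≠ 0`, `gG .. j (x') = 0`, and some `M j α (x') ≠ 0`. Let `K = k(x')`. The relations `G j (x') + ∑ α, τ (j, α) * (M j α (x') * G₀(x')) = 0` and C9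
(`a j = G j (x')`, `b j α = M j α (x') * G₀(x')`) give `trdeg k K ≥ s`. Let `𝔭` be the kernel of `aeval x' : k[X] → Ω`; `k[X] / 𝔭 ≅ k[x']` is a finitely generated domain with field of fractions `K`, so `dim k[X]/𝔭 = trdeg k K ≥ s` (Noether normalisation `exists_integral_inj_algHom_of_fg`, see the private lemmas `G1d_dim`, `G1d_int` of
Pool/Agent/Lib/MP_1e3e9c_agU/G1d.lean for the other inequality, and DimA.lean, DimB.lean of MP_1e3e9c_agS: `td`, `T_range`; the inequality needed here: an integral injective extension of the polynomial ring in `d` variables has dimension `≥ d`: lying over / going up, `ringKrullDim` of integral extensions in Mathlib).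
Let `I = vanishingIdeal` of the cone over `B` (`wdm`, `dm`): it is weighted homogeneous: with `F ∈ I` also the weighted homogeneous components of `F` are in `I` (the cone is stable under `v ↦ (a ^ w i * v i)_i`, `a ≠ 0`, and `k` is infinite). SUPPOSE no `F` as claimed exists: all `F ∈ vanishingIdeal B ⊇ I` vanish at `x`; so the weighted homogeneous components
of the elements of `I` vanish at `x`, hence at `x'`: `I ⊆ 𝔭*`, where `𝔭*` is the ideal of all `F` all of whose weighted homogeneous components are in `𝔭`: a prime ideal (Mathlib: `Ideal.homogeneousCore`, `Ideal.IsPrime.homogeneousCore`; or directly: `𝔭*` is the kernel of the map `k[X] → Ω[T]`, `X i ↦ x' i * T ^ w i`, so it is prime). `X i₀ - 1 ∈ 𝔭`, and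
`X i₀ - 1 ∉ 𝔭*` (its component `1` is not in `𝔭`). So `𝔭* ⊊ 𝔭`, and `dim k[X]/I ≥ dim k[X]/𝔭* ≥ dim k[X]/𝔭 + 1 ≥ s + 1`, a contradiction. (`s` is a natural number, `B = ∅` is allowed: then `F = 1`.)
-/

set_option autoImplicit false

namespace Pool.Agent.Lib.MP_1e3e9c_agC

open Pool.Agent.Lib.MP_1e3e9c_agR Pool.Agent.Lib.MP_1e3e9c_agM Pool.Agent.Lib.MP_1e3e9c_agF

/-- the dimension is at least the transcendence degree -/
private theorem C10_dim_ge {k B : Type} [Field k] [CommRing B] [IsDomain B] [Algebra k B]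
    [Algebra.FiniteType k B] {N : ℕ} (hN : (N : Cardinal) ≤ Algebra.trdeg k B) :
    ((N : ℕ) : WithBot ℕ∞) ≤ ringKrullDim B := by
  obtain ⟨s, g, hinj, hint⟩ := exists_integral_inj_algHom_of_fg k B
  let _ : Algebra (MvPolynomial (Fin s) k) B := g.toRingHom.toAlgebra
  have htow : IsScalarTower k (MvPolynomial (Fin s) k) B :=
    IsScalarTower.of_algebraMap_eq fun x => (g.commutes x).symm
  have hI : Algebra.IsIntegral (MvPolynomial (Fin s) k) B := ⟨hint⟩
  have hF : FaithfulSMul (MvPolynomial (Fin s) k) B :=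
    (faithfulSMul_iff_algebraMap_injective _ _).2 hinj
  have hNs : N ≤ s := by
    have h1 := trdeg_add_eq k (MvPolynomial (Fin s) k) (A := B)
    have h2 : Algebra.trdeg (MvPolynomial (Fin s) k) B = 0 := trdeg_eq_zero
    rw [h2, add_zero, MvPolynomial.trdeg_of_isDomain, Cardinal.mk_fin, Cardinal.lift_natCast] at h1
    rw [← h1] at hN
    exact_mod_cast hN
  have hdim : ringKrullDim (MvPolynomial (Fin s) k) = (s : WithBot ℕ∞) := by
    rw [MvPolynomial.ringKrullDim_of_isNoetherianRing, ringKrullDim_eq_zero_of_field, zero_add,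
      Nat.card_eq_fintype_card, Fintype.card_fin]
  have hle : ringKrullDim (MvPolynomial (Fin s) k) ≤ ringKrullDim B := by
    refine iSup_le fun l => ?_
    obtain ⟨P, hP, hP2⟩ := Ideal.exists_ideal_over_prime_of_isIntegral_of_isDomain (S := B)
      (RelSeries.head l).asIdeal (by
        rw [(RingHom.injective_iff_ker_eq_bot (algebraMap (MvPolynomial (Fin s) k) B)).1 hinj]
        exact bot_le)
    have : P.IsPrime := hP
    have : P.LiesOver (RelSeries.head l).asIdeal := ⟨hP2.symm⟩
    obtain ⟨L, hL, -, -⟩ := Ideal.exists_ltSeries_of_hasGoingUp l P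
    rw [← hL]
    exact le_iSup (fun L : LTSeries (PrimeSpectrum B) => ((L.length : ℕ) : WithBot ℕ∞)) L
  rw [hdim] at hle
  refine le_trans ?_ hle
  exact_mod_cast hNs

private theorem C10_scale {k R : Type} [Field k] [CommRing R] [Algebra k R] {n : ℕ}
    {w : Fin (n + 1) → ℕ} {P : MvPolynomial (Fin (n + 1)) k} {m : ℕ}
    (hP : P.IsWeightedHomogeneous w m) (c : R) (g : Fin (n + 1) → R) :
    MvPolynomial.aeval (fun i => c ^ w i * g i) P = c ^ m * MvPolynomial.aeval g P := by
  rw [MvPolynomial.aeval_def, MvPolynomial.aeval_def, MvPolynomial.eval₂_eq', MvPolynomial.eval₂_eq',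
    Finset.mul_sum]
  refine Finset.sum_congr rfl fun d hd => ?_
  have h1 : ∑ i, w i * d i = m := by
    have h2 := hP (MvPolynomial.mem_support_iff.mp hd)
    rw [Finsupp.weight_apply, Finsupp.sum_fintype _ _ (fun i => by rw [zero_smul])] at h2
    rw [← h2]
    exact Finset.sum_congr rfl fun i _ => by rw [smul_eq_mul, mul_comm]
  have h3 : ∏ i, (c ^ w i * g i) ^ d i = c ^ m * ∏ i, g i ^ d i := by
    rw [← h1, ← Finset.prod_pow_eq_pow_sum, ← Finset.prod_mul_distrib]
    exact Finset.prod_congr rfl fun i _ => by rw [mul_pow, pow_mul]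
  rw [h3]
  ring


/-- the dimension of the closure of a point -/
private theorem C10_point {k Ω U : Type} [Field k] [Field Ω] [Algebra k Ω] [Finite U]
    (x : U → Ω) {s : ℕ}
    (h : (s : Cardinal) ≤ Algebra.trdeg k (IntermediateField.adjoin k (Set.range x))) :
    ((s : ℕ) : WithBot ℕ∞) ≤ ringKrullDim (MvPolynomial U k ⧸
      RingHom.ker (MvPolynomial.aeval x : MvPolynomial U k →ₐ[k] Ω)) := by
  have hprime : (RingHom.ker (MvPolynomial.aeval x : MvPolynomial U k →ₐ[k] Ω)).IsPrime :=
    RingHom.ker_isPrime _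
  refine C10_dim_ge (k := k) (h.trans ?_)
  open scoped IntermediateField.algebraAdjoinAdjoin in
  have h1 := _root_.trdeg_add_eq k (Algebra.adjoin k (Set.range x))
    (A := IntermediateField.adjoin k (Set.range x))
  open scoped IntermediateField.algebraAdjoinAdjoin in
  have h2 : Algebra.trdeg (Algebra.adjoin k (Set.range x))
    (IntermediateField.adjoin k (Set.range x)) = 0 := _root_.trdeg_eq_zero
  rw [h2, add_zero] at h1
  rw [← h1]
  have h3 : Algebra.adjoin k (Set.range x) =
      (MvPolynomial.aeval x : MvPolynomial U k →ₐ[k] Ω).range :=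
    Algebra.adjoin_range_eq_range_aeval k x
  rw [h3]
  exact _root_.trdeg_le_of_injective
    (Ideal.quotientKerEquivRange (MvPolynomial.aeval x : MvPolynomial U k →ₐ[k] Ω)).symm.toAlgHom
    (Ideal.quotientKerEquivRange (MvPolynomial.aeval x : MvPolynomial U k →ₐ[k] Ω)).symm.injective

/-- the generic weighted components -/
private theorem C10_comp {k R : Type} [Field k] [CommRing R] [Algebra k R] {n : ℕ}
    (w : Fin (n + 1) → ℕ) (x : Fin (n + 1) → R) (F : MvPolynomial (Fin (n + 1)) k) :
    (MvPolynomial.aeval (fun i => Polynomial.C (MvPolynomial.X i) * Polynomial.X ^ w i :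
      Fin (n + 1) → Polynomial (MvPolynomial (Fin (n + 1)) k)) F).map
        (MvPolynomial.aeval x : MvPolynomial (Fin (n + 1)) k →ₐ[k] R).toRingHom =
      MvPolynomial.aeval (fun i => Polynomial.C (x i) * Polynomial.X ^ w i :
        Fin (n + 1) → Polynomial R) F := by
  have h1 := MvPolynomial.comp_aeval_apply
    (fun i => Polynomial.C (MvPolynomial.X i) * Polynomial.X ^ w i :
      Fin (n + 1) → Polynomial (MvPolynomial (Fin (n + 1)) k))
    (Polynomial.mapAlgHom (MvPolynomial.aeval x : MvPolynomial (Fin (n + 1)) k →ₐ[k] R)) F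
  refine h1.trans ?_
  congr 1
  congr 1
  funext i
  simp

theorem avoid {k Ω : Type} [Field k] [IsAlgClosed k] [Field Ω] [IsAlgClosed Ω] [Algebra k Ω]
    {n s N g₀ : ℕ} {w : Fin (n + 1) → ℕ} (hw : ∀ i, 0 < w i) {τ : Fin s × Fin N → Ω}
    (hτ : AlgebraicIndependent k τ) {G₀ : MvPolynomial (Fin (n + 1)) k}
    (hG₀ : G₀.IsWeightedHomogeneous w g₀) {G : Fin s → MvPolynomial (Fin (n + 1)) k}
    {g : Fin s → ℕ} (hG : ∀ j, (G j).IsWeightedHomogeneous w (g j)) (hg : ∀ j, g₀ ≤ g j)
    {M : Fin s → Fin N → MvPolynomial (Fin (n + 1)) k}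
    (hM : ∀ j α, (M j α).IsWeightedHomogeneous w (g j - g₀))
    {B : Set (Fin (n + 1) → k)} (hB : wdm w B ≤ ((s : ℕ) : WithBot ℕ∞)) {x : Fin (n + 1) → Ω}
    (hx0 : x ≠ 0) (h0 : MvPolynomial.aeval x G₀ ≠ 0)
    (hGx : ∀ j, MvPolynomial.eval x (gG τ G₀ G M j) = 0)
    (hbpf : ∀ j, ∃ α, MvPolynomial.aeval x (M j α) ≠ 0) :
    ∃ F : MvPolynomial (Fin (n + 1)) k, MvPolynomial.aeval x F ≠ 0 ∧
      ∀ v ∈ B, MvPolynomial.eval v F = 0 := by
  by_contra hcon
  push Not at hcon
  have hcon' : ∀ F : MvPolynomial (Fin (n + 1)) k, (∀ v ∈ B, MvPolynomial.eval v F = 0) →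
      MvPolynomial.aeval x F = 0 := by
    intro F hF
    by_contra h
    obtain ⟨v, hv, hv'⟩ := hcon F h
    exact hv' (hF v hv)
  obtain ⟨i₀, hi₀⟩ : ∃ i, x i ≠ 0 := by
    by_contra h
    push Not at h
    exact hx0 (funext h)
  obtain ⟨b, hb⟩ := IsAlgClosed.exists_pow_nat_eq (x i₀)⁻¹ (hw i₀)
  have hb0 : b ≠ 0 := by
    intro h
    rw [h, zero_pow (hw i₀).ne'] at hb
    exact inv_ne_zero hi₀ hb.symm
  obtain ⟨x', hx'⟩ : ∃ x' : Fin (n + 1) → Ω, x' = fun i => b ^ w i * x i := ⟨_, rfl⟩
  have hx'1 : x' i₀ = 1 := by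
    rw [hx']
    show b ^ w i₀ * x i₀ = 1
    rw [hb, inv_mul_cancel₀ hi₀]
  -- the field generated by the coordinates
  obtain ⟨K, hK⟩ : ∃ K : IntermediateField k Ω,
    K = IntermediateField.adjoin k (Set.range x') := ⟨_, rfl⟩
  have hKa : ∀ P : MvPolynomial (Fin (n + 1)) k, MvPolynomial.aeval x' P ∈ K := by
    intro P
    have h1 : MvPolynomial.aeval x' P ∈ Algebra.adjoin k (Set.range x') := by
      rw [Algebra.adjoin_range_eq_range_aeval]
      exact ⟨P, rfl⟩
    rw [hK]
    exact IntermediateField.algebra_adjoin_le_adjoin k _ h1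
  have hsc : ∀ {P : MvPolynomial (Fin (n + 1)) k} {d : ℕ}, P.IsWeightedHomogeneous w d →
      MvPolynomial.aeval x' P = b ^ d * MvPolynomial.aeval x P := by
    intro P d hP
    rw [hx']
    exact C10_scale hP b x
  have hst : (s : Cardinal) ≤ Algebra.trdeg k K := by
    refine trdeg_le τ hτ K (fun j => MvPolynomial.aeval x' (G j))
      (fun j α => MvPolynomial.aeval x' (M j α) * MvPolynomial.aeval x' G₀)
      (fun j => hKa _) (fun j α => K.mul_mem (hKa _) (hKa _)) (fun j => ?_) (fun j => ?_)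
    · obtain ⟨α, hα⟩ := hbpf j
      refine ⟨α, ?_⟩
      rw [hsc (hM j α), hsc hG₀]
      exact mul_ne_zero (mul_ne_zero (pow_ne_zero _ hb0) hα) (mul_ne_zero (pow_ne_zero _ hb0) h0)
    · have h1 := hGx j
      have h2 : MvPolynomial.eval x (gG τ G₀ G M j) = MvPolynomial.aeval x (G j) +
          (∑ α, τ (j, α) * MvPolynomial.aeval x (M j α)) * MvPolynomial.aeval x G₀ := by
        simp only [gG, map_add, map_mul, map_sum, MvPolynomial.eval_C, MvPolynomial.eval_map,
          MvPolynomial.aeval_def]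
      rw [h2] at h1
      have h3 : b ^ g j = b ^ (g j - g₀) * b ^ g₀ := by
        rw [← pow_add, Nat.sub_add_cancel (hg j)]
      have h4 : MvPolynomial.aeval x' (G j) +
          ∑ α, τ (j, α) * (MvPolynomial.aeval x' (M j α) * MvPolynomial.aeval x' G₀) =
          b ^ g j * (MvPolynomial.aeval x (G j) +
            (∑ α, τ (j, α) * MvPolynomial.aeval x (M j α)) * MvPolynomial.aeval x G₀) := by
        rw [hsc (hG j), mul_add, Finset.sum_mul, Finset.mul_sum, h3]
        congr 1
        refine Finset.sum_congr rfl fun α _ => ?_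
        rw [hsc (hM j α), hsc hG₀]
        ring
      rw [h4, h1, mul_zero]
  rw [hK] at hst
  have hdim := C10_point x' hst
  -- the homogeneous core
  obtain ⟨θ, hθ⟩ : ∃ θ : MvPolynomial (Fin (n + 1)) k →ₐ[k] Polynomial Ω,
    θ = MvPolynomial.aeval (fun i => Polynomial.C (x i) * Polynomial.X ^ w i) := ⟨_, rfl⟩
  have hθp : (RingHom.ker θ).IsPrime := RingHom.ker_isPrime _
  have hle : RingHom.ker θ ≤
      RingHom.ker (MvPolynomial.aeval x' : MvPolynomial (Fin (n + 1)) k →ₐ[k] Ω) := by
    intro F hF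
    rw [RingHom.mem_ker] at hF ⊢
    have h1 := MvPolynomial.comp_aeval_apply
      (fun i => Polynomial.C (x i) * Polynomial.X ^ w i : Fin (n + 1) → Polynomial Ω)
      ((Polynomial.aeval b : Polynomial Ω →ₐ[Ω] Ω).restrictScalars k) F
    have h2 : (fun i => ((Polynomial.aeval b : Polynomial Ω →ₐ[Ω] Ω).restrictScalars k)
        (Polynomial.C (x i) * Polynomial.X ^ w i)) = x' := by
      rw [hx']
      funext i
      show Polynomial.aeval b (Polynomial.C (x i) * Polynomial.X ^ w i) = b ^ w i * x i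
      rw [map_mul, map_pow, Polynomial.aeval_C, Polynomial.aeval_X, mul_comm]
      rfl
    rw [h2] at h1
    rw [← h1, ← hθ, hF, map_zero]
  have hIle : MvPolynomial.vanishingIdeal k {y : Fin (n + 1) → k | ∃ a : k, a ≠ 0 ∧
      ∃ v ∈ B, y = fun i => a ^ w i * v i} ≤ RingHom.ker θ := by
    intro F hF
    rw [RingHom.mem_ker, hθ, ← C10_comp w x F]
    have h1 : ∀ m, MvPolynomial.aeval x ((MvPolynomial.aeval
        (fun i => Polynomial.C (MvPolynomial.X i) * Polynomial.X ^ w i :
          Fin (n + 1) → Polynomial (MvPolynomial (Fin (n + 1)) k)) F).coeff m) = 0 := by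
      intro m
      refine hcon' _ fun v hv => ?_
      have h2 : MvPolynomial.aeval (fun i => Polynomial.C (v i) * Polynomial.X ^ w i :
          Fin (n + 1) → Polynomial k) F = 0 := by
        refine Polynomial.eq_zero_of_infinite_isRoot _ ?_
        refine Set.Infinite.mono (s := {a : k | a ≠ 0}) ?_ ?_
        · intro a ha
          show Polynomial.eval a _ = 0
          have h3 := MvPolynomial.comp_aeval_apply
            (fun i => Polynomial.C (v i) * Polynomial.X ^ w i : Fin (n + 1) → Polynomial k)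
            (Polynomial.aeval a : Polynomial k →ₐ[k] k) F
          rw [Polynomial.coe_aeval_eq_eval] at h3
          rw [h3]
          have h4 := hF (fun i => a ^ w i * v i) ⟨a, ha, v, hv, rfl⟩
          have h5 : (fun i => Polynomial.eval a (Polynomial.C (v i) * Polynomial.X ^ w i)) =
              fun i => a ^ w i * v i := by
            funext i
            rw [Polynomial.eval_mul, Polynomial.eval_pow, Polynomial.eval_C, Polynomial.eval_X,
              mul_comm]
          rw [h5]
          exact h4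
        · exact (Set.finite_singleton (0 : k)).infinite_compl
      have h3 := C10_comp w v F
      rw [h2] at h3
      have h4 := congrArg (fun P => Polynomial.coeff P m) h3
      simp only [Polynomial.coeff_map, Polynomial.coeff_zero] at h4
      rw [← MvPolynomial.aeval_eq_eval]
      exact h4
    ext m
    rw [Polynomial.coeff_map, Polynomial.coeff_zero]
    exact h1 m
  -- the chain
  have hd1 : ringKrullDim (MvPolynomial (Fin (n + 1)) k ⧸
      RingHom.ker (MvPolynomial.aeval x' : MvPolynomial (Fin (n + 1)) k →ₐ[k] Ω)) + 1 ≤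
      ringKrullDim (MvPolynomial (Fin (n + 1)) k ⧸ RingHom.ker θ) := by
    refine ringKrullDim_succ_le_of_surjective (Ideal.Quotient.factor hle)
      (Ideal.Quotient.factor_surjective hle)
      (r := Ideal.Quotient.mk _ (MvPolynomial.X i₀ - 1)) ?_ ?_
    · refine mem_nonZeroDivisors_of_ne_zero ?_
      rw [Ne, Ideal.Quotient.eq_zero_iff_mem, RingHom.mem_ker, hθ]
      intro h
      rw [map_sub, map_one, MvPolynomial.aeval_X] at h
      have h1 := congrArg (fun P => Polynomial.coeff P 0) h
      simp [Polynomial.coeff_X_pow, (hw i₀).ne] at h1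
    · rw [Ideal.Quotient.factor_mk, Ideal.Quotient.eq_zero_iff_mem, RingHom.mem_ker, map_sub,
        map_one, MvPolynomial.aeval_X, hx'1, sub_self]
  have hd2 : ringKrullDim (MvPolynomial (Fin (n + 1)) k ⧸ RingHom.ker θ) ≤
      ((s : ℕ) : WithBot ℕ∞) := by
    refine le_trans ?_ hB
    exact ringKrullDim_le_of_surjective (Ideal.Quotient.factor hIle)
      (Ideal.Quotient.factor_surjective hIle)
  have h1 : ((s : ℕ) : WithBot ℕ∞) + 1 ≤ ((s : ℕ) : WithBot ℕ∞) :=
    (add_le_add_left hdim 1).trans (hd1.trans hd2)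
  have h2 : ((s + 1 : ℕ) : WithBot ℕ∞) ≤ ((s : ℕ) : WithBot ℕ∞) := by
    push_cast
    exact h1
  have h3 : s + 1 ≤ s := by exact_mod_cast h2
  omega

end Pool.Agent.Lib.MP_1e3e9c_agC
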