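import Mathlib
import Pool.Agent.Lib.MP_1e3e9c_agC.CDefs

/-!
# MP_1e3e9c_ag, project C, leaf C6: specialisation of points

PROOF. `𝔭 = ker (aeval x : MvPolynomial U k →ₐ[k] L)` is prime (hence radical), `F ∉ 𝔭`; by the Nullstellensatz (`k` algebraically closed, `U` finite, `MvPolynomial.vanishingIdeal_zeroLocus_eq_radical`) there is a zero `y` of `𝔭` with `F(y) ≠ 0` (otherwise `F` vanishes on the zero locus of `𝔭`, so `F ∈ 𝔭`).
-/

set_option autoImplicit false

namespace Pool.Agent.Lib.MP_1e3e9c_agC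

theorem spec {k L U : Type} [Field k] [IsAlgClosed k] [Field L] [Algebra k L] [Finite U]
    (x : U → L) (F : MvPolynomial U k) (hF : MvPolynomial.aeval x F ≠ 0) :
    ∃ y : U → k, MvPolynomial.eval y F ≠ 0 ∧ Spz x y := by
  by_contra hcon
  have hP : (RingHom.ker (MvPolynomial.aeval x : MvPolynomial U k →ₐ[k] L)).IsPrime :=
    RingHom.ker_isPrime _
  have h1 := MvPolynomial.vanishingIdeal_zeroLocus_eq_radical (K := k)
    (RingHom.ker (MvPolynomial.aeval x : MvPolynomial U k →ₐ[k] L))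
  rw [hP.radical] at h1
  apply hF
  have h2 : F ∈ RingHom.ker (MvPolynomial.aeval x : MvPolynomial U k →ₐ[k] L) := by
    rw [← h1, MvPolynomial.mem_vanishingIdeal_iff]
    intro y hy
    by_contra hne
    refine hcon ⟨y, ?_, fun H hH => ?_⟩
    · rwa [← MvPolynomial.coe_aeval_eq_eval, RingHom.coe_coe]
    · have h3 := MvPolynomial.mem_zeroLocus_iff.1 hy H ((RingHom.mem_ker).2 hH)
      rwa [← MvPolynomial.coe_aeval_eq_eval, RingHom.coe_coe]
  exact (RingHom.mem_ker).1 h2

end Pool.Agent.Lib.MP_1e3e9c_agC
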