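import Mathlib
import Pool.Agent.Lib.MP_1e3e9c_agC.C6

/-!
# MP_1e3e9c_ag, project C, leaf C11: a rational curve over an extension field gives one over `k`

PROOF. Let `p : Fin (n + 1) → Polynomial Ω`, `s`, `t` be as in `HasRat w (oS Ω S)`. `Ω` is infinite (it contains `k`), so `P(p) = 0` in `Ω[T]` for all `P ∈ S` (`aeval p (P) = 0`). The points `x = p(s)`, `y = p(t)` are nonzero, on the zero set of `S`, not `Same`. BINOMIALS: there are `i`, `j` with `x i ^ w j * y j ^ w i ≠ x j ^ w i * y i ^ w j`: otherwise: choose `j` with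
`y j ≠ 0`; if `x j = 0` all `x i = 0` (from the binomial `i, j`), so `x j ≠ 0`, and then `x i = 0 ↔ y i = 0` for all `i`; on the support `I` put `u i = y i / x i ≠ 0`: `u i ^ w j = u j ^ w i`. By `hG` (`Gc w x`) the weights `w i`, `i ∈ I`, have greatest common divisor `1`, so `∑ n_i w_i = 1` with integers `n_i` (`Finset.gcd`, Bezout), `a = ∏ u i ^ n_i`
satisfies `a ^ w j = ∏ (u i ^ w j) ^ n_i = ∏ (u j ^ w i) ^ n_i = u j` for `j ∈ I`: `Same w x y`, a contradiction.
SPECIALISATION: let `U` be the finite type of the coefficients (`Fin (n + 1) × Fin (D + 1)`, `D` a bound for the degrees) and of `s`, `t` (`⊕ Fin 2`), `z : U → Ω` their values. The conditions `x i₁ ≠ 0`, `y j₁ ≠ 0`, binomial `≠ 0` are the nonvanishing at `z` of polynomials over `k` in `U`; take `F` their product, and `spec` (C6): `z' : U → k` with `F(z') ≠ 0` and `Spz z z'`.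
The polynomials `p' i` over `k` with coefficients `z'`: all coefficients of `P(p')` vanish (they are polynomials over `k` in the coefficients, which vanish at `z`), for `P ∈ S`. The binomial does not vanish at `p'(s')`, `p'(t')`, so these are not `Same` (`y i = a ^ w i * x i` makes all binomials vanish), and both are nonzero.
-/

set_option autoImplicit false

namespace Pool.Agent.Lib.MP_1e3e9c_agC

open Pool.Agent.Lib.MP_1e3e9c_agR Pool.Agent.Lib.MP_1e3e9c_agM Pool.Agent.Lib.MP_1e3e9c_agF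

private theorem C11_map {k A B : Type} [Field k] [CommRing A] [CommRing B] [Algebra k A] [Algebra k B] (φ : A →ₐ[k] B)
    {n : ℕ} (q : Fin (n + 1) → Polynomial A) (P : MvPolynomial (Fin (n + 1)) k) :
    (MvPolynomial.aeval q P).map (φ : A →+* B) = MvPolynomial.aeval (fun i => (q i).map (φ : A →+* B)) P := by
  induction P using MvPolynomial.induction_on with
  | C a =>
    rw [MvPolynomial.aeval_C, MvPolynomial.aeval_C, Polynomial.algebraMap_apply, Polynomial.algebraMap_apply,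
      Polynomial.map_C]
    exact congrArg Polynomial.C (φ.commutes a)
  | add P Q hP hQ => rw [map_add, map_add, Polynomial.map_add, hP, hQ]
  | mul_X P i hP =>
    rw [map_mul, map_mul, Polynomial.map_mul, hP, MvPolynomial.aeval_X, MvPolynomial.aeval_X]

private theorem C11_eval {k A : Type} [Field k] [CommRing A] [Algebra k A] {n : ℕ} (q : Fin (n + 1) → Polynomial A) (t : A)
    (P : MvPolynomial (Fin (n + 1)) k) :
    (MvPolynomial.aeval q P).eval t = MvPolynomial.aeval (fun i => (q i).eval t) P := by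
  induction P using MvPolynomial.induction_on with
  | C a => rw [MvPolynomial.aeval_C, MvPolynomial.aeval_C, Polynomial.algebraMap_apply, Polynomial.eval_C]
  | add P Q hP hQ => rw [map_add, map_add, Polynomial.eval_add, hP, hQ]
  | mul_X P i hP =>
    rw [map_mul, map_mul, Polynomial.eval_mul, hP, MvPolynomial.aeval_X, MvPolynomial.aeval_X]

private theorem C11_zsum {L ι : Type} [Field L] {a : L} (ha : a ≠ 0) (s : Finset ι) (c : ι → ℤ) :
    ∏ i ∈ s, a ^ c i = a ^ ∑ i ∈ s, c i := by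
  classical
  induction s using Finset.induction_on with
  | empty => rw [Finset.prod_empty, Finset.sum_empty, zpow_zero]
  | insert i s hi ih => rw [Finset.prod_insert hi, Finset.sum_insert hi, zpow_add₀ ha, ih]

/-- Bezout for the weights of the nonzero coordinates -/
private theorem C11_bezout {L : Type} [Field L] {n : ℕ} {w : Fin (n + 1) → ℕ} {x : Fin (n + 1) → L} (h : Gc w x) :
    ∃ c : {i // x i ≠ 0} → ℤ, ∑ᶠ i, c i * (w i.1 : ℤ) = 1 := by
  classical
  have hfin : Fintype {i // x i ≠ 0} := Fintype.ofFinite _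
  obtain ⟨J, hJ⟩ : ∃ J : Ideal ℤ, J = Ideal.span (Set.range fun i : {i // x i ≠ 0} => (w i.1 : ℤ)) := ⟨_, rfl⟩
  obtain ⟨g, hg⟩ := (IsPrincipalIdealRing.principal J).principal
  have h1 : g.natAbs = 1 := by
    refine h _ fun i hi => ?_
    have h2 : (w i : ℤ) ∈ J := by
      rw [hJ]
      exact Ideal.subset_span ⟨⟨i, hi⟩, rfl⟩
    rw [hg] at h2
    obtain ⟨a, ha⟩ := Submodule.mem_span_singleton.1 h2
    refine Int.natCast_dvd_natCast.1 (Int.natAbs_dvd.2 ⟨a, ?_⟩)
    rw [← ha, smul_eq_mul, mul_comm]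
  have h3 : (1 : ℤ) ∈ J := by
    rw [hg]
    refine Submodule.mem_span_singleton.2 ?_
    rcases Int.natAbs_eq_iff.1 h1 with h4 | h4
    · exact ⟨1, by rw [h4]; rfl⟩
    · exact ⟨-1, by rw [h4]; rfl⟩
  rw [hJ] at h3
  obtain ⟨c, hc⟩ := (Ideal.mem_span_range_iff_exists_fun).1 h3
  refine ⟨c, ?_⟩
  rw [finsum_eq_sum_of_fintype]
  exact hc

/-- two points with equal binomials are the same point -/
private theorem C11_same {L : Type} [Field L] {n : ℕ} {w : Fin (n + 1) → ℕ} (hw : ∀ i, 0 < w i) {x y : Fin (n + 1) → L}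
    (hx : x ≠ 0) (hy : y ≠ 0) (hG : Gc w x) (h : ∀ i j, x i ^ w j * y j ^ w i = x j ^ w i * y i ^ w j) : Same w x y := by
  classical
  obtain ⟨j₀, hj₀⟩ := Function.ne_iff.1 hy
  rw [Pi.zero_apply] at hj₀
  have hxj : x j₀ ≠ 0 := by
    intro h1
    refine hx ?_
    funext i
    have h2 := h i j₀
    rw [h1, zero_pow (hw i).ne', zero_mul] at h2
    exact eq_zero_of_pow_eq_zero ((mul_eq_zero.1 h2).resolve_right (pow_ne_zero _ hj₀))
  have hiff : ∀ i, x i = 0 ↔ y i = 0 := by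
    intro i
    have h2 := h i j₀
    constructor
    · intro h1
      rw [h1, zero_pow (hw j₀).ne', zero_mul] at h2
      exact eq_zero_of_pow_eq_zero ((mul_eq_zero.1 h2.symm).resolve_left (pow_ne_zero _ hxj))
    · intro h1
      rw [h1, zero_pow (hw j₀).ne', mul_zero] at h2
      exact eq_zero_of_pow_eq_zero ((mul_eq_zero.1 h2).resolve_right (pow_ne_zero _ hj₀))
  obtain ⟨c, hc⟩ := C11_bezout hG
  have hfin : Fintype {i // x i ≠ 0} := Fintype.ofFinite _
  rw [finsum_eq_sum_of_fintype] at hc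
  have hu : ∀ i : {i // x i ≠ 0}, y i.1 / x i.1 ≠ 0 := fun i => div_ne_zero (fun h1 => i.2 ((hiff i.1).2 h1)) i.2
  have huv : ∀ i j : {i // x i ≠ 0}, (y i.1 / x i.1) ^ w j.1 = (y j.1 / x j.1) ^ w i.1 := by
    intro i j
    rw [div_pow, div_pow, div_eq_div_iff (pow_ne_zero _ i.2) (pow_ne_zero _ j.2)]
    linear_combination -(h i.1 j.1)
  refine ⟨∏ i : {i // x i ≠ 0}, (y i.1 / x i.1) ^ c i, Finset.prod_ne_zero_iff.2 fun i _ => zpow_ne_zero _ (hu i), ?_⟩
  intro j
  by_cases hj : x j = 0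
  · rw [(hiff j).1 hj, hj, mul_zero]
  · have h5 : (∏ i : {i // x i ≠ 0}, (y i.1 / x i.1) ^ c i) ^ w j = y j / x j := by
      rw [← Finset.prod_pow]
      have h6 : ∀ i : {i // x i ≠ 0}, ((y i.1 / x i.1) ^ c i) ^ w j = (y j / x j) ^ (c i * (w i.1 : ℤ)) := by
        intro i
        rw [← zpow_natCast, ← zpow_mul, mul_comm (c i), zpow_mul, zpow_natCast, huv i ⟨j, hj⟩, ← zpow_natCast, ← zpow_mul,
          mul_comm]
      rw [Finset.prod_congr rfl fun i _ => h6 i, C11_zsum (hu ⟨j, hj⟩), hc, zpow_one]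
    rw [h5, div_mul_cancel₀ _ hj]

theorem descend {k Ω : Type} [Field k] [IsAlgClosed k] [Field Ω] [Algebra k Ω] {n : ℕ}
    {w : Fin (n + 1) → ℕ} (hw : ∀ i, 0 < w i) {S : Set (MvPolynomial (Fin (n + 1)) k)}
    (hG : ∀ x : Fin (n + 1) → Ω, x ≠ 0 → (∀ P ∈ S, MvPolynomial.aeval x P = 0) → Gc w x)
    (h : HasRat w (oS Ω S)) : HasRat w S := by
  classical
  have hInf : Infinite Ω := by
    have h0 : Infinite k := IsAlgClosed.instInfinite
    exact Infinite.of_injective _ (algebraMap k Ω).injective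
  obtain ⟨p, hp, s, t, hs, ht, hst⟩ := h
  have hpt : ∀ t : Ω, ∀ P ∈ S, MvPolynomial.aeval (val p t) P = 0 := by
    intro t P hP
    have h1 := hp t _ ⟨P, hP, rfl⟩
    rw [MvPolynomial.eval_map, ← MvPolynomial.aeval_def] at h1
    exact h1
  have hpS : ∀ P ∈ S, MvPolynomial.aeval p P = 0 := by
    intro P hP
    refine Polynomial.funext fun t => ?_
    rw [C11_eval, Polynomial.eval_zero]
    exact hpt t P hP
  have hbin : ∃ i j, val p s i ^ w j * val p t j ^ w i ≠ val p s j ^ w i * val p t i ^ w j := by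
    by_contra hcon
    push Not at hcon
    exact hst (C11_same hw hs ht (hG _ hs (hpt s)) hcon)
  obtain ⟨i, j, hij⟩ := hbin
  obtain ⟨i₁, hi₁⟩ := Function.ne_iff.1 hs
  obtain ⟨j₁, hj₁⟩ := Function.ne_iff.1 ht
  rw [Pi.zero_apply] at hi₁ hj₁
  obtain ⟨D, hD⟩ : ∃ D : ℕ, ∀ i, (p i).natDegree ≤ D :=
    ⟨∑ i, (p i).natDegree, fun i => Finset.single_le_sum (f := fun i => (p i).natDegree) (fun _ _ => Nat.zero_le _)
      (Finset.mem_univ i)⟩
  obtain ⟨z, hz⟩ : ∃ z : (Fin (n + 1) × Fin (D + 1)) ⊕ Fin 2 → Ω,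
    z = Sum.elim (fun u => (p u.1).coeff u.2) ![s, t] := ⟨_, rfl⟩
  obtain ⟨q, hq⟩ : ∃ q : Fin (n + 1) → Polynomial (MvPolynomial ((Fin (n + 1) × Fin (D + 1)) ⊕ Fin 2) k),
    q = fun i => ∑ l : Fin (D + 1), Polynomial.C (MvPolynomial.X (Sum.inl (i, l))) * Polynomial.X ^ (l : ℕ) := ⟨_, rfl⟩
  have hqp : ∀ i, (q i).map ((MvPolynomial.aeval z : MvPolynomial ((Fin (n + 1) × Fin (D + 1)) ⊕ Fin 2) k →ₐ[k] Ω) : MvPolynomial ((Fin (n + 1) × Fin (D + 1)) ⊕ Fin 2) k →+* Ω) = p i := by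
    intro i
    rw [hq, Polynomial.map_sum, (p i).as_sum_range' (D + 1) (Nat.lt_succ_of_le (hD i)), Finset.sum_range]
    refine Finset.sum_congr rfl fun l _ => ?_
    rw [Polynomial.map_mul, Polynomial.map_pow, Polynomial.map_X, Polynomial.map_C, Polynomial.C_mul_X_pow_eq_monomial]
    have h1 : (MvPolynomial.aeval z : MvPolynomial ((Fin (n + 1) × Fin (D + 1)) ⊕ Fin 2) k →ₐ[k] Ω) (MvPolynomial.X (Sum.inl (i, l))) = (p i).coeff l := by
      rw [MvPolynomial.aeval_X, hz]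
      rfl
    exact congrArg (Polynomial.monomial (l : ℕ)) h1
  have hval : ∀ (i : Fin (n + 1)) (o : Fin 2), MvPolynomial.aeval z ((q i).eval (MvPolynomial.X (Sum.inr o))) =
      (p i).eval (z (Sum.inr o)) := by
    intro i o
    have h1 := Polynomial.eval_map_apply (p := q i) ((MvPolynomial.aeval z : MvPolynomial ((Fin (n + 1) × Fin (D + 1)) ⊕ Fin 2) k →ₐ[k] Ω) : MvPolynomial ((Fin (n + 1) × Fin (D + 1)) ⊕ Fin 2) k →+* Ω)
      (MvPolynomial.X (Sum.inr o))
    rw [hqp] at h1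
    have h2 : ((MvPolynomial.aeval z : MvPolynomial ((Fin (n + 1) × Fin (D + 1)) ⊕ Fin 2) k →ₐ[k] Ω) : MvPolynomial ((Fin (n + 1) × Fin (D + 1)) ⊕ Fin 2) k →+* Ω) (MvPolynomial.X (Sum.inr o)) =
        z (Sum.inr o) := MvPolynomial.aeval_X z _
    rw [h2] at h1
    exact h1.symm
  have hzs : z (Sum.inr 0) = s := by rw [hz]; rfl
  have hzt : z (Sum.inr 1) = t := by rw [hz]; rfl
  obtain ⟨ξ, hξ⟩ : ∃ ξ : Fin (n + 1) → MvPolynomial ((Fin (n + 1) × Fin (D + 1)) ⊕ Fin 2) k,
    ξ = fun i => (q i).eval (MvPolynomial.X (Sum.inr 0)) := ⟨_, rfl⟩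
  obtain ⟨η, hη⟩ : ∃ η : Fin (n + 1) → MvPolynomial ((Fin (n + 1) × Fin (D + 1)) ⊕ Fin 2) k,
    η = fun i => (q i).eval (MvPolynomial.X (Sum.inr 1)) := ⟨_, rfl⟩
  have hξz : ∀ i, MvPolynomial.aeval z (ξ i) = val p s i := by
    intro i
    rw [hξ]
    show MvPolynomial.aeval z ((q i).eval (MvPolynomial.X (Sum.inr 0))) = (p i).eval s
    rw [hval, hzs]
  have hηz : ∀ i, MvPolynomial.aeval z (η i) = val p t i := by
    intro i
    rw [hη]
    show MvPolynomial.aeval z ((q i).eval (MvPolynomial.X (Sum.inr 1))) = (p i).eval t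
    rw [hval, hzt]
  obtain ⟨z', hz'F, hz'⟩ := spec z (ξ i₁ * η j₁ * (ξ i ^ w j * η j ^ w i - ξ j ^ w i * η i ^ w j)) (by
    rw [map_mul, map_mul, map_sub, map_mul, map_mul, map_pow, map_pow, map_pow, map_pow, hξz, hξz, hξz, hηz, hηz, hηz]
    exact mul_ne_zero (mul_ne_zero hi₁ hj₁) (sub_ne_zero.2 hij))
  rw [map_mul, map_mul, map_sub, map_mul, map_mul, map_pow, map_pow, map_pow, map_pow] at hz'F
  have hF1 := left_ne_zero_of_mul hz'F
  have hF2 := right_ne_zero_of_mul hz'F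
  obtain ⟨p', hp'⟩ : ∃ p' : Fin (n + 1) → Polynomial k,
    p' = fun i => (q i).map ((MvPolynomial.aeval z' : MvPolynomial ((Fin (n + 1) × Fin (D + 1)) ⊕ Fin 2) k →ₐ[k] k) : MvPolynomial ((Fin (n + 1) × Fin (D + 1)) ⊕ Fin 2) k →+* k) := ⟨_, rfl⟩
  have hval' : ∀ (i : Fin (n + 1)) (o : Fin 2), MvPolynomial.eval z' ((q i).eval (MvPolynomial.X (Sum.inr o))) =
      val p' (z' (Sum.inr o)) i := by
    intro i o
    have h1 := Polynomial.eval_map_apply (p := q i) ((MvPolynomial.aeval z' : MvPolynomial ((Fin (n + 1) × Fin (D + 1)) ⊕ Fin 2) k →ₐ[k] k) : MvPolynomial ((Fin (n + 1) × Fin (D + 1)) ⊕ Fin 2) k →+* k)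
      (MvPolynomial.X (Sum.inr o))
    have h2 : ((MvPolynomial.aeval z' : MvPolynomial ((Fin (n + 1) × Fin (D + 1)) ⊕ Fin 2) k →ₐ[k] k) : MvPolynomial ((Fin (n + 1) × Fin (D + 1)) ⊕ Fin 2) k →+* k) (MvPolynomial.X (Sum.inr o)) =
        z' (Sum.inr o) := MvPolynomial.aeval_X z' _
    rw [h2] at h1
    rw [hp']
    show _ = ((q i).map _).eval (z' (Sum.inr o))
    rw [h1]
    exact (congrFun (congrArg DFunLike.coe (MvPolynomial.coe_aeval_eq_eval z')) _).symm
  have hξz' : ∀ i, MvPolynomial.eval z' (ξ i) = val p' (z' (Sum.inr 0)) i := by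
    intro i
    rw [hξ]
    exact hval' i 0
  have hηz' : ∀ i, MvPolynomial.eval z' (η i) = val p' (z' (Sum.inr 1)) i := by
    intro i
    rw [hη]
    exact hval' i 1
  refine ⟨p', fun t' P hP => ?_, z' (Sum.inr 0), z' (Sum.inr 1), ?_, ?_, ?_⟩
  · have h1 : MvPolynomial.aeval p' P = 0 := by
      rw [hp', ← C11_map]
      ext l
      rw [Polynomial.coeff_map, Polynomial.coeff_zero]
      have h2 : MvPolynomial.aeval z ((MvPolynomial.aeval q P).coeff l) = 0 := by
        have h3 := C11_map (MvPolynomial.aeval z : MvPolynomial ((Fin (n + 1) × Fin (D + 1)) ⊕ Fin 2) k →ₐ[k] Ω) q P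
        have h4 : (fun i => (q i).map ((MvPolynomial.aeval z : MvPolynomial ((Fin (n + 1) × Fin (D + 1)) ⊕ Fin 2) k →ₐ[k] Ω) : MvPolynomial ((Fin (n + 1) × Fin (D + 1)) ⊕ Fin 2) k →+* Ω)) = p :=
          funext hqp
        rw [h4, hpS P hP] at h3
        have h5 := congrArg (fun Q => Polynomial.coeff Q l) h3
        simp only [Polynomial.coeff_map, Polynomial.coeff_zero] at h5
        exact h5
      have h6 := hz' _ h2
      rw [← MvPolynomial.coe_aeval_eq_eval] at h6
      exact h6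
    have h2 := C11_eval p' t' P
    rw [h1, Polynomial.eval_zero] at h2
    have h3 : MvPolynomial.aeval (fun i => (p' i).eval t') P = MvPolynomial.eval (val p' t') P :=
      congrFun (congrArg DFunLike.coe (MvPolynomial.coe_aeval_eq_eval _)) P
    rw [← h3]
    exact h2.symm
  · intro h1
    refine left_ne_zero_of_mul hF1 ?_
    rw [hξz', h1]
    rfl
  · intro h1
    refine right_ne_zero_of_mul hF1 ?_
    rw [hηz', h1]
    rfl
  · rintro ⟨a, -, ha⟩
    refine hF2 ?_
    rw [hξz', hξz', hηz', hηz', ha i, ha j, mul_pow, mul_pow, ← pow_mul, ← pow_mul]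
    ring

end Pool.Agent.Lib.MP_1e3e9c_agC
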