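import Mathlib
import Pool.Agent.Lib.MP_1e3e9c_agC.CDefs

/-!
# MP_1e3e9c_ag, project C, leaf C12: a set of dimension `< 0` is empty

PROOF. `wdm w B = dim k[X] / I`, `I` the vanishing ideal of the cone `{a ^ w i * v i | a ≠ 0, v ∈ B}`. Let `v ∈ B`, `v i₀ ≠ 0`. The map `k[X] → k[T]`, `X i ↦ C (v i) * T ^ w i`, kills `I` (`k` is infinite: a polynomial in `T` which vanishes at all `a ≠ 0` is `0`), and `k[T]` is integral over its image, which contains `T ^ w i₀`
(`k[T ^ w i₀] ⊆` image): so `dim k[X]/I ≥ dim (image) ≥ 1`. Directly: the kernel `𝔮` of this map and the kernel `𝔪` of the evaluation at `v` are primes with `I ⊆ 𝔮 ⊊ 𝔪` (`X i₀ - C (v i₀) ∈ 𝔪`, not in `𝔮` because `0 < w i₀`), a chain of length `1` in `k[X]/I`, so the dimension is `≥ 1`, a contradiction.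
-/

set_option autoImplicit false

namespace Pool.Agent.Lib.MP_1e3e9c_agC

open Pool.Agent.Lib.MP_1e3e9c_agR Pool.Agent.Lib.MP_1e3e9c_agM Pool.Agent.Lib.MP_1e3e9c_agF

theorem eq_zero_of_wdm {k : Type} [Field k] [IsAlgClosed k] {n : ℕ} {w : Fin (n + 1) → ℕ}
    (hw : ∀ i, 0 < w i) {B : Set (Fin (n + 1) → k)} (hB : wdm w B ≤ 0) {v : Fin (n + 1) → k}
    (hv : v ∈ B) : v = 0 := by
  by_contra hv0
  obtain ⟨i₀, hi₀⟩ : ∃ i, v i ≠ 0 := by
    by_contra h
    exact hv0 (funext fun i => by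
      by_contra h1
      exact h ⟨i, h1⟩)
  -- the map `X i ↦ v i T ^ w i`
  let φ : MvPolynomial (Fin (n + 1)) k →ₐ[k] Polynomial k :=
    MvPolynomial.aeval (fun i => Polynomial.C (v i) * Polynomial.X ^ w i)
  obtain ⟨I, hI⟩ : ∃ I, I = MvPolynomial.vanishingIdeal k
      {x : Fin (n + 1) → k | ∃ a : k, a ≠ 0 ∧ ∃ v ∈ B, x = fun i => a ^ w i * v i} := ⟨_, rfl⟩
  have hdim : ringKrullDim (MvPolynomial (Fin (n + 1)) k ⧸ I) ≤ 0 := by
    rw [hI]
    exact hB
  have hφI : ∀ F ∈ I, φ F = 0 := by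
    intro F hF
    have h1 : ∀ a : k, (Polynomial.X * φ F).eval a = 0 := by
      intro a
      rw [Polynomial.eval_mul, Polynomial.eval_X]
      by_cases ha : a = 0
      · rw [ha, zero_mul]
      · have h2 : (φ F).eval a = MvPolynomial.aeval (fun i => a ^ w i * v i) F := by
          have h3 := MvPolynomial.comp_aeval_apply
            (fun i => Polynomial.C (v i) * Polynomial.X ^ w i) (Polynomial.aeval a) F
          rw [← Polynomial.coe_aeval_eq_eval]
          refine h3.trans (congrArg (fun z : Fin (n + 1) → k => MvPolynomial.aeval z F)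
            (funext fun i => ?_))
          rw [map_mul, map_pow, Polynomial.aeval_C, Polynomial.aeval_X, mul_comm]
          rfl
        rw [h2]
        rw [hI] at hF
        rw [MvPolynomial.mem_vanishingIdeal_iff.1 hF _ ⟨a, ha, v, hv, rfl⟩, mul_zero]
    have h2 : Polynomial.X * φ F = 0 := Polynomial.funext fun a => by rw [h1 a, Polynomial.eval_zero]
    exact (mul_eq_zero.1 h2).resolve_left Polynomial.X_ne_zero
  let ψ : (MvPolynomial (Fin (n + 1)) k ⧸ I) →+* Polynomial k :=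
    Ideal.Quotient.lift I (φ : MvPolynomial (Fin (n + 1)) k →+* Polynomial k) hφI
  have hmax : (RingHom.ker ψ).IsMaximal := by
    have h1 : Ring.KrullDimLE 0 (MvPolynomial (Fin (n + 1)) k ⧸ I) := Ring.krullDimLE_iff.2 hdim
    have h2 : (RingHom.ker ψ).IsPrime := RingHom.ker_isPrime ψ
    exact h2.isMaximal'
  obtain ⟨x, hx⟩ : ∃ x, x = Ideal.Quotient.mk I (MvPolynomial.X i₀) := ⟨_, rfl⟩
  have hψx : ψ x = Polynomial.C (v i₀) * Polynomial.X ^ w i₀ := by
    rw [hx]
    show φ (MvPolynomial.X i₀) = _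
    exact MvPolynomial.aeval_X _ _
  have hxk : x ∉ RingHom.ker ψ := by
    intro h
    rw [RingHom.mem_ker, hψx] at h
    rcases mul_eq_zero.1 h with h1 | h1
    · exact hi₀ (Polynomial.C_eq_zero.1 h1)
    · exact pow_ne_zero _ Polynomial.X_ne_zero h1
  obtain ⟨y, hy⟩ := hmax.exists_inv hxk
  obtain ⟨z, hz, hyz⟩ := hy
  have h1 : ψ y * (Polynomial.C (v i₀) * Polynomial.X ^ w i₀) = 1 := by
    have h2 := congrArg ψ hyz
    rw [map_add, map_mul, hψx, RingHom.mem_ker.1 hz, add_zero, map_one] at h2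
    exact h2
  have h2 := congrArg (Polynomial.eval 0) h1
  rw [Polynomial.eval_mul, Polynomial.eval_mul, Polynomial.eval_pow, Polynomial.eval_X,
    zero_pow (hw i₀).ne', mul_zero, mul_zero, Polynomial.eval_one] at h2
  exact zero_ne_one h2

end Pool.Agent.Lib.MP_1e3e9c_agC
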