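import Mathlib

/-!
# MP_1e3e9c_ag, project C, leaf C13: finitely many forms of given weights (MATHLIB ONLY)

PROOF. For positive weights there are finitely many monomials of weight `d j` (all exponents are `≤ d j`); `N` = the maximum over `j` of their numbers, `M j` an enumeration of the monomials of weight `d j`, extended by `0` (`0` is weighted homogeneous of every weight). A weighted homogeneous polynomial of weight `d j` is the sum of its
monomials, so it is in the span. (Or: `N` = a bound for the dimensions of the finite-dimensional spaces `MvPolynomial.weightedHomogeneousSubmodule k w (d j)`.)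
-/

set_option autoImplicit false

namespace Pool.Agent.Lib.MP_1e3e9c_agC

theorem exists_forms (k : Type) [Field k] {n s : ℕ} {w : Fin (n + 1) → ℕ} (hw : ∀ i, 0 < w i)
    (d : Fin s → ℕ) :
    ∃ (N : ℕ) (M : Fin s → Fin N → MvPolynomial (Fin (n + 1)) k),
      (∀ j α, (M j α).IsWeightedHomogeneous w (d j)) ∧
      ∀ j F, F.IsWeightedHomogeneous w (d j) → F ∈ Submodule.span k (Set.range (M j)) := by
  classical
  have hfin : {e : Fin (n + 1) →₀ ℕ | Finsupp.weight w e ≤ ∑ j, d j}.Finite :=
    Finsupp.finite_of_nat_weight_le w (fun i => (hw i).ne') _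
  let T : Finset (Fin (n + 1) →₀ ℕ) := hfin.toFinset
  refine ⟨T.card, fun j α => if Finsupp.weight w (T.equivFin.symm α : Fin (n + 1) →₀ ℕ) = d j then
    MvPolynomial.monomial (T.equivFin.symm α : Fin (n + 1) →₀ ℕ) (1 : k) else 0, ?_, ?_⟩
  · intro j α
    show (if Finsupp.weight w (T.equivFin.symm α : Fin (n + 1) →₀ ℕ) = d j then
      MvPolynomial.monomial (T.equivFin.symm α : Fin (n + 1) →₀ ℕ) (1 : k) else 0)
      |>.IsWeightedHomogeneous w (d j)
    split_ifs with h
    · exact MvPolynomial.isWeightedHomogeneous_monomial w _ _ h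
    · exact MvPolynomial.isWeightedHomogeneous_zero k w (d j)
  · intro j F hF
    have key : ∑ e ∈ F.support, MvPolynomial.monomial e (MvPolynomial.coeff e F) ∈
        Submodule.span k (Set.range fun α => if Finsupp.weight w
          (T.equivFin.symm α : Fin (n + 1) →₀ ℕ) = d j then
          MvPolynomial.monomial (T.equivFin.symm α : Fin (n + 1) →₀ ℕ) (1 : k) else 0) := by
      refine Submodule.sum_mem _ fun e he => ?_
      have h1 : Finsupp.weight w e = d j := hF (MvPolynomial.mem_support_iff.1 he)
      have h2 : e ∈ T := by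
        rw [Set.Finite.mem_toFinset]
        show Finsupp.weight w e ≤ ∑ j, d j
        rw [h1]
        exact Finset.single_le_sum (fun i _ => Nat.zero_le (d i)) (Finset.mem_univ j)
      have h3 : MvPolynomial.monomial e (MvPolynomial.coeff e F) =
          MvPolynomial.coeff e F • MvPolynomial.monomial e (1 : k) := by
        rw [MvPolynomial.smul_monomial, smul_eq_mul, mul_one]
      rw [h3]
      refine Submodule.smul_mem _ _ (Submodule.subset_span ⟨T.equivFin ⟨e, h2⟩, ?_⟩)
      show (if Finsupp.weight w (T.equivFin.symm (T.equivFin ⟨e, h2⟩) : Fin (n + 1) →₀ ℕ) = d j then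
        MvPolynomial.monomial (T.equivFin.symm (T.equivFin ⟨e, h2⟩) : Fin (n + 1) →₀ ℕ) (1 : k)
          else 0) = MvPolynomial.monomial e 1
      rw [Equiv.symm_apply_apply, if_pos h1]
    rw [MvPolynomial.support_sum_monomial_coeff] at key
    exact key

end Pool.Agent.Lib.MP_1e3e9c_agC
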