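import Mathlib
import Pool.Agent.Lib.MP_1e3e9c_agC.CDefs

/-!
# MP_1e3e9c_ag, project C, leaf C14: independence of gradients is an open condition

PROOF. Let `ι` be finite. The vectors `gr (Q l) y` are linearly independent, so there is an injective choice of columns `j : ι → Fin (n + 1)` with `det (eval y (pderiv (j b) (Q a)))_(a,b) ≠ 0` (a matrix with independent rows has a nonzero maximal minor; private lemma `C3_minor` in Pool/Agent/Lib/MP_1e3e9c_agF/C3.lean, also A6.lean).
The determinant `H` of the matrix of the polynomials `pderiv (j b) (Q a)` has `eval y H ≠ 0`, so `aeval x H ≠ 0` (`hxy`), and `aeval x H` is the determinant of the matrix `(eval x (pderiv (j b) (map (Q a))))_(a,b)`: the rows `gr (map (Q a)) x` are linearly independent.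
-/

set_option autoImplicit false

namespace Pool.Agent.Lib.MP_1e3e9c_agC

open Pool.Agent.Lib.MP_1e3e9c_agR Pool.Agent.Lib.MP_1e3e9c_agM Pool.Agent.Lib.MP_1e3e9c_agF

private theorem C14_minor {k ι : Type} [Field k] [Fintype ι] [DecidableEq ι] {n : ℕ} (y : ι → Fin (n + 1) → k)
    (hy : LinearIndependent k y) :
    ∃ j : ι → Fin (n + 1), (Matrix.of fun a b : ι => y a (j b)).det ≠ 0 := by
  classical
  let N : Matrix ι (Fin (n + 1)) k := Matrix.of fun b i => y b i
  have h3 : N.rank = Fintype.card ι := LinearIndependent.rank_matrix (M := N) hy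
  obtain ⟨κ, a, ha, hsp, hli⟩ := exists_linearIndependent' k N.col
  have hF : Fintype κ := Fintype.ofInjective a ha
  have hcard : Fintype.card ι = Fintype.card κ := by
    rw [← finrank_span_eq_card hli, hsp, ← Matrix.rank_eq_finrank_span_cols, h3]
  let e : ι ≃ κ := Fintype.equivOfCardEq hcard
  refine ⟨fun i => a (e i), fun h0 => ?_⟩
  have h4 : LinearIndependent k (fun i : ι => N.col (a (e i))) := hli.comp e e.injective
  have h5 : IsUnit (Matrix.of fun i b : ι => N b (a (e i))) :=
    Matrix.linearIndependent_rows_iff_isUnit.1 h4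
  rw [Matrix.isUnit_iff_isUnit_det] at h5
  have h6 : (Matrix.of fun i b : ι => N b (a (e i))).det =
      (Matrix.of fun a' b : ι => y a' (a (e b))).det := by
    rw [← Matrix.det_transpose]
    rfl
  rw [h6, h0] at h5
  exact not_isUnit_zero h5

theorem li_spz {k Ω ι : Type} [Field k] [Field Ω] [Algebra k Ω] [Finite ι] {n : ℕ}
    {x : Fin (n + 1) → Ω} {y : Fin (n + 1) → k} (hxy : Spz x y)
    (Q : ι → MvPolynomial (Fin (n + 1)) k) (h : LinearIndependent k fun l => gr (Q l) y) :
    LinearIndependent Ω fun l => gr (MvPolynomial.map (algebraMap k Ω) (Q l)) x := by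
  classical
  have hF : Fintype ι := Fintype.ofFinite ι
  obtain ⟨j, hj⟩ := C14_minor _ h
  obtain ⟨H, hH⟩ : ∃ H : MvPolynomial (Fin (n + 1)) k,
      H = (Matrix.of fun a b : ι => MvPolynomial.pderiv (j b) (Q a)).det := ⟨_, rfl⟩
  have h1 : MvPolynomial.eval y H ≠ 0 := by
    rw [hH, RingHom.map_det]
    exact hj
  have h2 : MvPolynomial.aeval x H ≠ 0 := fun h0 => h1 (hxy H h0)
  have h3 : MvPolynomial.aeval x H = (Matrix.of fun a b : ι =>
      gr (MvPolynomial.map (algebraMap k Ω) (Q a)) x (j b)).det := by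
    rw [hH, AlgHom.map_det]
    congr 1
    ext a b
    show MvPolynomial.aeval x (MvPolynomial.pderiv (j b) (Q a)) =
      MvPolynomial.eval x (MvPolynomial.pderiv (j b) (MvPolynomial.map (algebraMap k Ω) (Q a)))
    rw [MvPolynomial.pderiv_map, MvPolynomial.eval_map, MvPolynomial.aeval_def]
  rw [h3] at h2
  refine LinearIndependent.of_comp (LinearMap.funLeft Ω Ω j) ?_
  have h4 : IsUnit (Matrix.of fun a b : ι => gr (MvPolynomial.map (algebraMap k Ω) (Q a)) x (j b)) := by
    rw [Matrix.isUnit_iff_isUnit_det]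
    exact isUnit_iff_ne_zero.2 h2
  exact Matrix.linearIndependent_rows_iff_isUnit.2 h4

end Pool.Agent.Lib.MP_1e3e9c_agC
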