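import Mathlib
import Pool.Agent.Lib.MP_1e3e9c_agC.CDefs

/-!
# MP_1e3e9c_ag, project C, leaf C15: smooth complete intersections of `W`

PROOF. (1) `lci_union`: let `P` be the `c` polynomials of `LCI S c x`. Take `P' = Fin.append P H : Fin (c + s) → ..`. The gradients are independent by `hP` (reindex by `finSumFinEquiv : Fin c ⊕ Fin s ≃ Fin (c + s)`, `Fin.append` = `Sum.elim` composed with its inverse). For `Q ∈ S` take the `h` of `LCI`: `h * Q ∈ span (range P) ≤ span (range P')`; for `Q = H j` take `h = 1`.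
(2) `li_change`: let `P` be the polynomials of `LCI S c x`. For every `Q ∈ S` the gradient `gr Q x` is in the span `V` of the `gr (P l) x` (differentiate `h * Q = ∑ h_l * P_l` at `x`, `Q(x) = P_l(x) = 0`, `h(x) ≠ 0`), `dim V ≤ c`. The `c` independent vectors `gr (P₁ l) x ∈ V` span `V`, and the same for `P₂`. So both families span `V`; `v` is linearly independent
modulo `V` (`LinearIndependent` of `Sum.elim a v` iff `a` is independent, `v` is independent, and the spans are disjoint: `LinearIndependent.sum_type`, `linearIndependent_sum`).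
-/

set_option autoImplicit false

namespace Pool.Agent.Lib.MP_1e3e9c_agC

open Pool.Agent.Lib.MP_1e3e9c_agR Pool.Agent.Lib.MP_1e3e9c_agM Pool.Agent.Lib.MP_1e3e9c_agF

private theorem C15_gr_add {k : Type} [Field k] {n : ℕ} (P Q : MvPolynomial (Fin (n + 1)) k)
    (x : Fin (n + 1) → k) : gr (P + Q) x = gr P x + gr Q x := by
  funext i
  simp only [gr, map_add, Pi.add_apply]

private theorem C15_gr_mul {k : Type} [Field k] {n : ℕ} (P Q : MvPolynomial (Fin (n + 1)) k)
    (x : Fin (n + 1) → k) : gr (P * Q) x =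
      MvPolynomial.eval x P • gr Q x + MvPolynomial.eval x Q • gr P x := by
  funext i
  simp only [gr, Derivation.leibniz, smul_eq_mul, map_add, map_mul, Pi.add_apply, Pi.smul_apply]

private theorem C15_ideal {k : Type} [Field k] {n c : ℕ} {x : Fin (n + 1) → k}
    {P : Fin c → MvPolynomial (Fin (n + 1)) k} (hP : ∀ l, MvPolynomial.eval x (P l) = 0)
    {R : MvPolynomial (Fin (n + 1)) k} (hR : R ∈ Ideal.span (Set.range P)) :
    MvPolynomial.eval x R = 0 ∧ gr R x ∈ Submodule.span k (Set.range fun l => gr (P l) x) := by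
  refine Submodule.span_induction (p := fun R _ => MvPolynomial.eval x R = 0 ∧
    gr R x ∈ Submodule.span k (Set.range fun l => gr (P l) x)) ?_ ?_ ?_ ?_ hR
  · rintro _ ⟨l, rfl⟩
    exact ⟨hP l, Submodule.subset_span ⟨l, rfl⟩⟩
  · refine ⟨map_zero _, ?_⟩
    have h0 : gr (0 : MvPolynomial (Fin (n + 1)) k) x = 0 := by
      funext i
      simp only [gr, map_zero, Pi.zero_apply]
    rw [h0]
    exact Submodule.zero_mem _
  · rintro R₁ R₂ - - ⟨h1, h2⟩ ⟨h3, h4⟩
    refine ⟨by rw [map_add, h1, h3, add_zero], ?_⟩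
    rw [C15_gr_add]
    exact Submodule.add_mem _ h2 h4
  · rintro a R₁ - ⟨h1, h2⟩
    refine ⟨by rw [smul_eq_mul, map_mul, h1, mul_zero], ?_⟩
    rw [smul_eq_mul, C15_gr_mul, h1, zero_smul, add_zero]
    exact Submodule.smul_mem _ _ h2

private theorem C15_mem {k : Type} [Field k] {n c : ℕ} {S : Set (MvPolynomial (Fin (n + 1)) k)}
    {x : Fin (n + 1) → k} (hx : ∀ P ∈ S, MvPolynomial.eval x P = 0)
    {P : Fin c → MvPolynomial (Fin (n + 1)) k} (hP : ∀ l, P l ∈ S)
    (hQ : ∀ Q ∈ S, ∃ h, MvPolynomial.eval x h ≠ 0 ∧ h * Q ∈ Ideal.span (Set.range P))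
    {Q : MvPolynomial (Fin (n + 1)) k} (h : Q ∈ S) :
    gr Q x ∈ Submodule.span k (Set.range fun l => gr (P l) x) := by
  obtain ⟨g, hg, hgQ⟩ := hQ Q h
  have h1 := (C15_ideal (fun l => hx _ (hP l)) hgQ).2
  rw [C15_gr_mul, hx Q h, zero_smul, add_zero] at h1
  exact (Submodule.smul_mem_iff _ hg).1 h1

private theorem C15_span {k : Type} [Field k] {n c : ℕ} {V : Submodule k (Fin (n + 1) → k)}
    (hV : Module.finrank k V ≤ c) {a : Fin c → Fin (n + 1) → k} (ha : LinearIndependent k a)
    (h : ∀ l, a l ∈ V) : Submodule.span k (Set.range a) = V := by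
  have h1 : Submodule.span k (Set.range a) ≤ V := by
    rw [Submodule.span_le]
    rintro _ ⟨l, rfl⟩
    exact h l
  refine Submodule.eq_of_le_of_finrank_le h1 ?_
  rw [finrank_span_eq_card ha, Fintype.card_fin]
  exact hV

theorem lci_union {k : Type} [Field k] {n c s : ℕ} {S : Set (MvPolynomial (Fin (n + 1)) k)}
    {H : Fin s → MvPolynomial (Fin (n + 1)) k} {x : Fin (n + 1) → k} (hl : LCI S c x)
    (hP : ∀ P : Fin c → MvPolynomial (Fin (n + 1)) k, (∀ l, P l ∈ S) →
      LinearIndependent k (fun l => gr (P l) x) →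
      LinearIndependent k (Sum.elim (fun l => gr (P l) x) fun j => gr (H j) x :
        Fin c ⊕ Fin s → Fin (n + 1) → k)) : LCI (S ∪ Set.range H) (c + s) x := by
  obtain ⟨P, h1, h2, h3⟩ := hl
  have h4 := hP P h1 h2
  refine ⟨Fin.append P H, ?_, ?_, ?_⟩
  · intro l
    refine Fin.addCases (fun i => ?_) (fun j => ?_) l
    · rw [Fin.append_left]
      exact Or.inl (h1 i)
    · rw [Fin.append_right]
      exact Or.inr ⟨j, rfl⟩
  · rw [← linearIndependent_equiv (finSumFinEquiv (m := c) (n := s))]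
    have h5 : (fun l => gr (Fin.append P H l) x) ∘ finSumFinEquiv =
        (Sum.elim (fun l => gr (P l) x) fun j => gr (H j) x) := by
      funext l
      rcases l with l | l
      · rw [Function.comp_apply, finSumFinEquiv_apply_left, Fin.append_left, Sum.elim_inl]
      · rw [Function.comp_apply, finSumFinEquiv_apply_right, Fin.append_right, Sum.elim_inr]
    rw [h5]
    exact h4
  · rintro Q (hQ | ⟨j, rfl⟩)
    · obtain ⟨h, hh, hQ'⟩ := h3 Q hQ
      refine ⟨h, hh, Ideal.span_mono ?_ hQ'⟩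
      rintro _ ⟨l, rfl⟩
      exact ⟨Fin.castAdd s l, Fin.append_left P H l⟩
    · refine ⟨1, by rw [map_one]; exact one_ne_zero, ?_⟩
      rw [one_mul]
      exact Ideal.subset_span ⟨Fin.natAdd c j, Fin.append_right P H j⟩

theorem li_change {k ι : Type} [Field k] {n c : ℕ} {S : Set (MvPolynomial (Fin (n + 1)) k)}
    {x : Fin (n + 1) → k} (hx : ∀ P ∈ S, MvPolynomial.eval x P = 0) (hl : LCI S c x)
    (v : ι → Fin (n + 1) → k) {P₁ P₂ : Fin c → MvPolynomial (Fin (n + 1)) k}
    (h₁ : ∀ l, P₁ l ∈ S) (h₂ : ∀ l, P₂ l ∈ S)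
    (hi : LinearIndependent k (Sum.elim (fun l => gr (P₁ l) x) v))
    (h2 : LinearIndependent k fun l => gr (P₂ l) x) :
    LinearIndependent k (Sum.elim (fun l => gr (P₂ l) x) v) := by
  obtain ⟨P, hP, hP1, hP2⟩ := hl
  have hV : Module.finrank k (Submodule.span k (Set.range fun l => gr (P l) x)) ≤ c := by
    have h3 := finrank_range_le_card (R := k) (fun l => gr (P l) x)
    rw [Fintype.card_fin] at h3
    exact h3
  rw [linearIndependent_sum] at hi
  obtain ⟨h3, h4, h5⟩ := hi
  have e1 := C15_span hV h3 (fun l => C15_mem hx hP hP2 (h₁ l))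
  have e2 := C15_span hV h2 (fun l => C15_mem hx hP hP2 (h₂ l))
  refine LinearIndependent.sum_type h2 h4 ?_
  rw [e2, ← e1]
  exact h5

end Pool.Agent.Lib.MP_1e3e9c_agC
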