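import Mathlib
import Pool.Agent.Lib.MP_1e3e9c_agC.CDefs

/-!
# MP_1e3e9c_ag, project C, leaf C16: the generic members at the points of `X`

PROOF. (1) `gr_gG`: product rule, `G₀(x) = 0`: `gr (gG τ G₀ G M j) x = gr (map (G j)) x + a j • gr (map G₀) x` with `a j = ∑ α, τ (j, α) * aeval x (M j α)`.
(2) `li_gG`: by (1) the new family arises from the old one by adding to the vector `j.succ` the multiple `a j` of the vector `0`: an invertible change. (Directly: a relation for the new family with coefficients `λ`, `μ 0`, `μ j` is a relation for the old one with coefficients `λ`, `μ 0 + ∑ j, μ j a j`, `μ j`.)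
(3) `hom_gG`: the weights: `g j - g₀ + g₀ = g j`.
-/

set_option autoImplicit false

namespace Pool.Agent.Lib.MP_1e3e9c_agC

open Pool.Agent.Lib.MP_1e3e9c_agR Pool.Agent.Lib.MP_1e3e9c_agM Pool.Agent.Lib.MP_1e3e9c_agF

private theorem C16_eval {k Ω : Type} [Field k] [Field Ω] [Algebra k Ω] {n : ℕ} (x : Fin (n + 1) → Ω)
    (P : MvPolynomial (Fin (n + 1)) k) :
    MvPolynomial.eval x (MvPolynomial.map (algebraMap k Ω) P) = MvPolynomial.aeval x P := by
  rw [MvPolynomial.eval_map, MvPolynomial.aeval_def]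

private theorem C16_li {Ω V ι : Type} [Field Ω] [AddCommGroup V] [Module Ω V] {s : ℕ} (v : ι → V)
    (u0 : V) (u : Fin s → V) (a : Fin s → Ω)
    (h : LinearIndependent Ω (Sum.elim v (Fin.cons u0 u : Fin (s + 1) → V))) :
    LinearIndependent Ω (Sum.elim v (Fin.cons u0 (fun j => u j + a j • u0) : Fin (s + 1) → V)) := by
  rw [linearIndependent_sum] at h ⊢
  obtain ⟨h1, h2, h3⟩ := h
  rw [Sum.elim_comp_inl] at h1 h3 ⊢
  rw [Sum.elim_comp_inr] at h2 h3 ⊢
  refine ⟨h1, ?_, h3.mono_right ?_⟩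
  · rw [Fintype.linearIndependent_iff] at h2 ⊢
    intro g hg
    rw [Fin.sum_univ_succ] at hg
    simp only [Fin.cons_zero, Fin.cons_succ] at hg
    have e := h2 (Fin.cons (g 0 + ∑ j, g j.succ * a j) (fun j => g j.succ)) (by
      rw [Fin.sum_univ_succ]
      simp only [Fin.cons_zero, Fin.cons_succ]
      rw [← hg, add_smul, Finset.sum_smul, add_assoc, ← Finset.sum_add_distrib]
      refine congrArg (fun z => g 0 • u0 + z) (Finset.sum_congr rfl fun j _ => ?_)
      rw [smul_add, smul_smul, add_comm])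
    have e1 : ∀ j : Fin s, g j.succ = 0 := fun j => by
      have e3 := e j.succ
      rwa [Fin.cons_succ] at e3
    have e2 := e 0
    rw [Fin.cons_zero, Finset.sum_eq_zero (fun j _ => by rw [e1 j, zero_mul]), add_zero] at e2
    intro i
    exact Fin.cases e2 e1 i
  · rw [Submodule.span_le]
    rintro _ ⟨i, rfl⟩
    refine Fin.cases ?_ (fun j => ?_) i
    · exact Submodule.subset_span ⟨0, rfl⟩
    · exact add_mem (Submodule.subset_span ⟨j.succ, rfl⟩)
        (Submodule.smul_mem _ _ (Submodule.subset_span ⟨0, rfl⟩))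

private theorem C16_map {k Ω : Type} [Field k] [Field Ω] [Algebra k Ω] {n : ℕ} {w : Fin (n + 1) → ℕ}
    {P : MvPolynomial (Fin (n + 1)) k} {m : ℕ} (h : P.IsWeightedHomogeneous w m) :
    (MvPolynomial.map (algebraMap k Ω) P).IsWeightedHomogeneous w m := by
  intro d hd
  refine h fun h0 => hd ?_
  rw [MvPolynomial.coeff_map, h0, map_zero]

theorem gr_gG {k Ω : Type} [Field k] [Field Ω] [Algebra k Ω] {n s N : ℕ}
    (τ : Fin s × Fin N → Ω) (G₀ : MvPolynomial (Fin (n + 1)) k)
    (G : Fin s → MvPolynomial (Fin (n + 1)) k) (M : Fin s → Fin N → MvPolynomial (Fin (n + 1)) k)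
    {x : Fin (n + 1) → Ω} (h0 : MvPolynomial.aeval x G₀ = 0) (j : Fin s) :
    gr (gG τ G₀ G M j) x = gr (MvPolynomial.map (algebraMap k Ω) (G j)) x +
      (∑ α, τ (j, α) * MvPolynomial.aeval x (M j α)) •
        gr (MvPolynomial.map (algebraMap k Ω) G₀) x := by
  funext i
  show MvPolynomial.eval x (MvPolynomial.pderiv i (gG τ G₀ G M j)) =
    MvPolynomial.eval x (MvPolynomial.pderiv i (MvPolynomial.map (algebraMap k Ω) (G j))) +
      (∑ α, τ (j, α) * MvPolynomial.aeval x (M j α)) *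
        MvPolynomial.eval x (MvPolynomial.pderiv i (MvPolynomial.map (algebraMap k Ω) G₀))
  have h1 : MvPolynomial.eval x (∑ α, MvPolynomial.C (τ (j, α)) *
      MvPolynomial.map (algebraMap k Ω) (M j α)) = ∑ α, τ (j, α) * MvPolynomial.aeval x (M j α) := by
    rw [map_sum]
    refine Finset.sum_congr rfl fun α _ => ?_
    rw [map_mul, MvPolynomial.eval_C, C16_eval]
  unfold gG
  rw [map_add, map_add, MvPolynomial.pderiv_mul, map_add, map_mul, map_mul, C16_eval x G₀, h0, mul_zero,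
    zero_add, h1]

theorem li_gG {k Ω ι : Type} [Field k] [Field Ω] [Algebra k Ω] {n s N : ℕ}
    (τ : Fin s × Fin N → Ω) (G₀ : MvPolynomial (Fin (n + 1)) k)
    (G : Fin s → MvPolynomial (Fin (n + 1)) k) (M : Fin s → Fin N → MvPolynomial (Fin (n + 1)) k)
    {x : Fin (n + 1) → Ω} (h0 : MvPolynomial.aeval x G₀ = 0) (v : ι → Fin (n + 1) → Ω)
    (h : LinearIndependent Ω (Sum.elim v
      (Fin.cons (gr (MvPolynomial.map (algebraMap k Ω) G₀) x) fun j =>
        gr (MvPolynomial.map (algebraMap k Ω) (G j)) x : Fin (s + 1) → Fin (n + 1) → Ω))) :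
    LinearIndependent Ω (Sum.elim v
      (Fin.cons (gr (MvPolynomial.map (algebraMap k Ω) G₀) x) fun j =>
        gr (gG τ G₀ G M j) x : Fin (s + 1) → Fin (n + 1) → Ω)) := by
  have h1 := C16_li v _ _ (fun j => ∑ α, τ (j, α) * MvPolynomial.aeval x (M j α)) h
  have h2 : (fun j => gr (gG τ G₀ G M j) x) = fun j => gr (MvPolynomial.map (algebraMap k Ω) (G j)) x +
      (∑ α, τ (j, α) * MvPolynomial.aeval x (M j α)) •
        gr (MvPolynomial.map (algebraMap k Ω) G₀) x := funext fun j => gr_gG τ G₀ G M h0 j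
  rw [h2]
  exact h1

theorem hom_gG {k Ω : Type} [Field k] [Field Ω] [Algebra k Ω] {n s N g₀ : ℕ}
    {w : Fin (n + 1) → ℕ} (τ : Fin s × Fin N → Ω) {G₀ : MvPolynomial (Fin (n + 1)) k}
    (hG₀ : G₀.IsWeightedHomogeneous w g₀) {G : Fin s → MvPolynomial (Fin (n + 1)) k}
    {g : Fin s → ℕ} (hG : ∀ j, (G j).IsWeightedHomogeneous w (g j)) (hg : ∀ j, g₀ ≤ g j)
    {M : Fin s → Fin N → MvPolynomial (Fin (n + 1)) k}
    (hM : ∀ j α, (M j α).IsWeightedHomogeneous w (g j - g₀)) (j : Fin s) :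
    (gG τ G₀ G M j).IsWeightedHomogeneous w (g j) := by
  refine (C16_map (hG j)).add ?_
  have h1 := (MvPolynomial.IsWeightedHomogeneous.sum Finset.univ (fun α => MvPolynomial.C (τ (j, α)) *
      MvPolynomial.map (algebraMap k Ω) (M j α)) (g j - g₀)
      (fun α _ => (C16_map (hM j α)).C_mul (τ (j, α)))).mul (C16_map (Ω := Ω) hG₀)
  rwa [Nat.sub_add_cancel (hg j)] at h1

end Pool.Agent.Lib.MP_1e3e9c_agC
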