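import Mathlib
import Pool.Agent.Lib.MP_1e3e9c_agC.C6
import Pool.Agent.Lib.MP_1e3e9c_agC.C14

/-!
# MP_1e3e9c_ag, project C, leaf C17: good points over `Ω`

PROOF. `spec` (C6) gives a point `y` over `k` with `F(y) ≠ 0`, `Spz x y`; it is good. `lci`: the polynomials `P l` of `LCI S c y`: their images over `Ω` have independent gradients at `x` (`li_spz`, C14), and for `Q ∈ S` the same `h` works: `h(y) ≠ 0` implies `aeval x h ≠ 0` (`Spz`), and `h * Q ∈ span (range P)` is mapped to the ideal over `Ω`.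
`gc`: `y i ≠ 0` implies `x i ≠ 0` (`Spz` for `X i`), so a common divisor of the `w i` with `x i ≠ 0` is one for `y`. `eq`: let `P l ∈ oS Ω S`, `P l = map (P' l)`, `P' l ∈ S` (choice), `H = ψ i * mnr P' j - ψ j * mnr P' i`; if `aeval x H ≠ 0`, apply `spec` to `F * H`: a point `y'` over `k` with `F(y') ≠ 0`, `H(y') ≠ 0`, `Spz x y'`: it is good and `eq` for `y'` is a contradiction.
(`mnr (map P') j = map (mnr P' j)`: `RingHom.map_det`, `MvPolynomial.pderiv_map`.) `ne`: `ψ j (y) ≠ 0` implies `ψ j (x) ≠ 0`.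
-/

set_option autoImplicit false

namespace Pool.Agent.Lib.MP_1e3e9c_agC

open Pool.Agent.Lib.MP_1e3e9c_agR Pool.Agent.Lib.MP_1e3e9c_agM Pool.Agent.Lib.MP_1e3e9c_agF

private lemma C17_eval_map {k Ω : Type} [Field k] [Field Ω] [Algebra k Ω] {U : Type}
    (x : U → Ω) (H : MvPolynomial U k) :
    MvPolynomial.eval x (MvPolynomial.map (algebraMap k Ω) H) = MvPolynomial.aeval x H := by
  rw [MvPolynomial.eval_map, MvPolynomial.aeval_def]

private lemma C17_ne {k Ω : Type} [Field k] [Field Ω] [Algebra k Ω] {U : Type}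
    {x : U → Ω} {y : U → k} (h : Spz x y) {H : MvPolynomial U k} (hH : MvPolynomial.eval y H ≠ 0) :
    MvPolynomial.aeval x H ≠ 0 :=
  fun h0 => hH (h H h0)

private lemma C17_mnr {k Ω : Type} [Field k] [Field Ω] [Algebra k Ω] {n c : ℕ}
    (P' : Fin c → MvPolynomial (Fin (n + 1)) k) (P : Fin c → MvPolynomial (Fin (n + 1)) Ω)
    (hP : ∀ l, MvPolynomial.map (algebraMap k Ω) (P' l) = P l) (j : Fin c → Fin (n + 1)) :
    mnr P j = MvPolynomial.map (algebraMap k Ω) (mnr P' j) := by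
  unfold mnr
  rw [RingHom.map_det]
  apply congrArg
  ext a b : 2
  simp only [Matrix.of_apply, RingHom.mapMatrix_apply, Matrix.map_apply]
  rw [← hP a, MvPolynomial.pderiv_map]

theorem gd_spz {k Ω : Type} [Field k] [IsAlgClosed k] [Field Ω] [Algebra k Ω] {n c : ℕ}
    {w : Fin (n + 1) → ℕ} {S : Set (MvPolynomial (Fin (n + 1)) k)}
    {ψ : (Fin c → Fin (n + 1)) → MvPolynomial (Fin (n + 1)) k} {x : Fin (n + 1) → Ω}
    {F : MvPolynomial (Fin (n + 1)) k} (hF : MvPolynomial.aeval x F ≠ 0)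
    (h : ∀ y : Fin (n + 1) → k, Spz x y → MvPolynomial.eval y F ≠ 0 → Gd w S c ψ y) :
    Gd w (oS Ω S) c (fun j => MvPolynomial.map (algebraMap k Ω) (ψ j)) x := by
  obtain ⟨y, hFy, hxy⟩ := spec x F hF
  have G := h y hxy hFy
  refine ⟨?_, ?_, ?_, ?_⟩
  · obtain ⟨P, hP, hli, hQ⟩ := G.lci
    refine ⟨fun l => MvPolynomial.map (algebraMap k Ω) (P l), fun l => ⟨P l, hP l, rfl⟩,
      li_spz hxy P hli, ?_⟩
    rintro _ ⟨Q, hQS, rfl⟩
    obtain ⟨g, hg, hmem⟩ := hQ Q hQS
    refine ⟨MvPolynomial.map (algebraMap k Ω) g, ?_, ?_⟩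
    · rw [C17_eval_map]
      exact C17_ne hxy hg
    · have h1 := Ideal.mem_map_of_mem (MvPolynomial.map (algebraMap k Ω)) hmem
      rw [Ideal.map_span, map_mul, ← Set.range_comp] at h1
      exact h1
  · intro d hd
    refine G.gc d fun i hi => hd i fun h0 => hi ?_
    have h1 := hxy (MvPolynomial.X i) (by rw [MvPolynomial.aeval_X, h0])
    rwa [MvPolynomial.eval_X] at h1
  · intro P hP i j
    choose P' hP' hPe using hP
    rw [C17_mnr P' P hPe, C17_mnr P' P hPe]
    simp only [C17_eval_map]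
    by_contra hne
    have hH : MvPolynomial.aeval x (F * (ψ i * mnr P' j - ψ j * mnr P' i)) ≠ 0 := by
      rw [map_mul, map_sub, map_mul, map_mul]
      exact mul_ne_zero hF (sub_ne_zero.mpr hne)
    obtain ⟨z, hz, hxz⟩ := spec x _ hH
    rw [map_mul] at hz
    have G' := h z hxz (left_ne_zero_of_mul hz)
    have h2 := right_ne_zero_of_mul hz
    rw [map_sub, map_mul, map_mul, sub_ne_zero] at h2
    exact h2 (G'.eq P' hP' i j)
  · obtain ⟨j, hj⟩ := G.ne
    refine ⟨j, ?_⟩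
    rw [C17_eval_map]
    exact C17_ne hxy hj

end Pool.Agent.Lib.MP_1e3e9c_agC
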