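import Mathlib
import Pool.Agent.Lib.MP_1e3e9c_agC.CDefs

/-!
# MP_1e3e9c_ag, project C, leaf C2: adjunction, one equation

PROOF. `mnr (Fin.cons G P') j = ∑ b, (-1)^b * pderiv (j b) G * mnr P' (j ∘ b.succAbove)` (`Matrix.det_succ_row_zero`). FIRST PART. Let `P : Fin (c + 1) → ..`, all `P l ∈ insert G S`. If all `P l ∈ S`: `mnr P j` vanishes at `x` by the second part of `h`: `a = 0`. Otherwise `P l₀ = G` for some `l₀`; expand along the row `l₀`
(`Matrix.det_succ_row`: `det A = ∑ b, (-1)^(l₀ + b) * A l₀ b * det (A.submatrix l₀.succAbove b.succAbove)`): `mnr P j = (-1)^l₀ * ∑ b, (-1)^b * pderiv (j b) G * mnr P' (j ∘ b.succAbove)`, `P' = P ∘ l₀.succAbove`. If some `P' l = G` too, two rows are equal: all `mnr P j = 0`, `a = 0` (`Matrix.det_zero_of_row_eq`).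
Otherwise all `P' l ∈ S`, and with `a'` from the first part of `h` for `P'`: `mnr P j (x) = (-1)^l₀ * a' * ext ψ G j (x)` for all `j`.
SECOND PART: `P : Fin (c + 2) → ..`: if all `P l ∈ S`: expand along row `0`: the minors of the `c + 1` other rows vanish at `x` (second part of `h`). If `P l₀ = G` expand along this row; if another `P l = G` two rows are equal; otherwise the other `c + 1` rows are in `S` and their minors vanish.
-/

set_option autoImplicit false

namespace Pool.Agent.Lib.MP_1e3e9c_agC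

open Pool.Agent.Lib.MP_1e3e9c_agR Pool.Agent.Lib.MP_1e3e9c_agM Pool.Agent.Lib.MP_1e3e9c_agF

private theorem C2_row {k : Type} [Field k] {n c : ℕ}
    (P : Fin (c + 1) → MvPolynomial (Fin (n + 1)) k) (j : Fin (c + 1) → Fin (n + 1))
    (l₀ : Fin (c + 1)) :
    mnr P j = (-1) ^ (l₀ : ℕ) * ∑ b : Fin (c + 1), (-1) ^ (b : ℕ) *
      MvPolynomial.pderiv (j b) (P l₀) *
        mnr (fun i => P (l₀.succAbove i)) (fun i => j (b.succAbove i)) := by
  unfold mnr
  rw [Matrix.det_succ_row _ l₀, Finset.mul_sum]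
  refine Finset.sum_congr rfl fun b _ => ?_
  have h1 : (Matrix.of fun a b : Fin (c + 1) => MvPolynomial.pderiv (j b) (P a)) l₀ b =
      MvPolynomial.pderiv (j b) (P l₀) := rfl
  have h2 : ((Matrix.of fun a b : Fin (c + 1) => MvPolynomial.pderiv (j b) (P a)).submatrix
      l₀.succAbove b.succAbove) = Matrix.of fun a b' : Fin c =>
        MvPolynomial.pderiv (j (b.succAbove b')) (P (l₀.succAbove a)) := rfl
  rw [h1, h2, pow_add]
  ring

private theorem C2_eq {k : Type} [Field k] {n c : ℕ}
    {P : Fin c → MvPolynomial (Fin (n + 1)) k} (j : Fin c → Fin (n + 1))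
    {l l' : Fin c} (hl : l ≠ l') (h : P l = P l') : mnr P j = 0 := by
  unfold mnr
  refine Matrix.det_zero_of_row_eq hl (funext fun b => ?_)
  show MvPolynomial.pderiv (j b) (P l) = MvPolynomial.pderiv (j b) (P l')
  rw [h]

theorem inv_step {k : Type} [Field k] {n c : ℕ} {S : Set (MvPolynomial (Fin (n + 1)) k)}
    {ψ : (Fin c → Fin (n + 1)) → MvPolynomial (Fin (n + 1)) k} {x : Fin (n + 1) → k}
    (h : InvAt S c ψ x) (G : MvPolynomial (Fin (n + 1)) k) :
    InvAt (insert G S) (c + 1) (ext ψ G) x := by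
  constructor
  · intro P hP
    by_cases hG : ∃ l₀, P l₀ = G
    · obtain ⟨l₀, h0⟩ := hG
      by_cases hG2 : ∃ l, P (l₀.succAbove l) = G
      · obtain ⟨l, hl⟩ := hG2
        refine ⟨0, fun j => ?_⟩
        rw [C2_eq j (Fin.succAbove_ne l₀ l).symm (h0.trans hl.symm), map_zero, zero_mul]
      · push Not at hG2
        obtain ⟨a', ha'⟩ := h.1 (fun i => P (l₀.succAbove i)) fun l =>
          (Set.mem_insert_iff.1 (hP (l₀.succAbove l))).resolve_left (hG2 l)
        refine ⟨(-1) ^ (l₀ : ℕ) * a', fun j => ?_⟩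
        rw [C2_row P j l₀, h0]
        unfold ext
        simp only [map_mul, map_sum, map_pow, map_neg, map_one, ha', Finset.mul_sum]
        refine Finset.sum_congr rfl fun b _ => ?_
        ring
    · push Not at hG
      refine ⟨0, fun j => ?_⟩
      rw [zero_mul]
      exact h.2 P (fun l => (Set.mem_insert_iff.1 (hP l)).resolve_left (hG l)) j
  · intro P hP j
    have key : ∀ l₀ : Fin (c + 1 + 1), (∀ l, P (l₀.succAbove l) ∈ S) →
        MvPolynomial.eval x (mnr P j) = 0 := by
      intro l₀ hl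
      rw [C2_row P j l₀]
      have h1 : ∀ b : Fin (c + 1 + 1), MvPolynomial.eval x
          (mnr (fun i => P (l₀.succAbove i)) (fun i => j (b.succAbove i))) = 0 :=
        fun b => h.2 _ hl _
      simp only [map_mul, map_sum, h1, mul_zero, Finset.sum_const_zero]
    by_cases hG : ∃ l₀, P l₀ = G
    · obtain ⟨l₀, h0⟩ := hG
      by_cases hG2 : ∃ l, P (l₀.succAbove l) = G
      · obtain ⟨l, hl⟩ := hG2
        rw [C2_eq j (Fin.succAbove_ne l₀ l).symm (h0.trans hl.symm), map_zero]
      · push Not at hG2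
        exact key l₀ fun l =>
          (Set.mem_insert_iff.1 (hP (l₀.succAbove l))).resolve_left (hG2 l)
    · push Not at hG
      exact key 0 fun l => (Set.mem_insert_iff.1 (hP _)).resolve_left (hG _)

end Pool.Agent.Lib.MP_1e3e9c_agC
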