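import Mathlib
import Pool.Agent.Lib.MP_1e3e9c_agC.CDefs

/-!
# MP_1e3e9c_ag, project C, leaf C3: the weights of `ψ ∧ dG`

PROOF. Every nonzero summand `± pderiv (j b) G * ψ (j ∘ b.succAbove)` of `ext ψ G j` is weighted homogeneous of weight `e + g - ∑ b, w (j b)`: if `pderiv (j b) G ≠ 0` then `w (j b) ≤ g` and it has weight `g - w (j b)` (Mathlib: `MvPolynomial.IsWeightedHomogeneous.pderiv`, or a lemma of the team library: search for IsWeightedHomogeneous and pderiv),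
and `ψ (j ∘ b.succAbove) ≠ 0` has weight `d'` with `d' + ∑ i, w (j (b.succAbove i)) = e` (`hψ`), `∑ b', w (j b') = w (j b) + ∑ i, w (j (b.succAbove i))` (`Fin.sum_univ_succAbove`). As `ext ψ G j ≠ 0` there is a nonzero summand, so `∑ b, w (j b) ≤ e + g`; take `d = e + g - ∑ b, w (j b)` and use that sums of weighted homogeneous
polynomials of weight `d` (and `0`) are weighted homogeneous.
-/

set_option autoImplicit false

namespace Pool.Agent.Lib.MP_1e3e9c_agC

open Pool.Agent.Lib.MP_1e3e9c_agR Pool.Agent.Lib.MP_1e3e9c_agM Pool.Agent.Lib.MP_1e3e9c_agF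

private lemma C3_le {k : Type} [Field k] {n g : ℕ} {w : Fin (n + 1) → ℕ}
    {G : MvPolynomial (Fin (n + 1)) k} (hG : G.IsWeightedHomogeneous w g) (i : Fin (n + 1))
    (h : MvPolynomial.pderiv i G ≠ 0) : w i ≤ g := by
  have hi : i ∈ G.vars := by
    by_contra hc
    exact h (MvPolynomial.pderiv_eq_zero_of_notMem_vars hc)
  obtain ⟨m, hm, him⟩ := (MvPolynomial.mem_vars i).1 hi
  have h1 := hG (MvPolynomial.mem_support_iff.1 hm)
  rw [← h1]
  exact Finsupp.le_weight_of_ne_zero' w (Finsupp.mem_support_iff.1 him)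

private lemma C3_term {k : Type} [Field k] {n c e g : ℕ} {w : Fin (n + 1) → ℕ}
    {ψ : (Fin c → Fin (n + 1)) → MvPolynomial (Fin (n + 1)) k}
    (hψ : ∀ j, ψ j ≠ 0 → ∃ d, (ψ j).IsWeightedHomogeneous w d ∧ d + ∑ b, w (j b) = e)
    {G : MvPolynomial (Fin (n + 1)) k} (hG : G.IsWeightedHomogeneous w g)
    (j : Fin (c + 1) → Fin (n + 1)) (b : Fin (c + 1))
    (hb : (-1) ^ (b : ℕ) * MvPolynomial.pderiv (j b) G * ψ (fun i => j (b.succAbove i)) ≠ 0) :
    ∑ b', w (j b') ≤ e + g ∧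
      ((-1) ^ (b : ℕ) * MvPolynomial.pderiv (j b) G *
        ψ (fun i => j (b.succAbove i))).IsWeightedHomogeneous w (e + g - ∑ b', w (j b')) := by
  have h2 : ψ (fun i => j (b.succAbove i)) ≠ 0 := right_ne_zero_of_mul hb
  have h1 : MvPolynomial.pderiv (j b) G ≠ 0 := right_ne_zero_of_mul (left_ne_zero_of_mul hb)
  obtain ⟨d', hd', hde⟩ := hψ _ h2
  have hw := C3_le hG (j b) h1
  have hsum : ∑ b', w (j b') = w (j b) + ∑ i, w (j (b.succAbove i)) :=
    Fin.sum_univ_succAbove (fun b' => w (j b')) b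
  have hp : (MvPolynomial.pderiv (j b) G).IsWeightedHomogeneous w (g - w (j b)) :=
    hG.pderiv (by omega)
  have hs : ((-1 : MvPolynomial (Fin (n + 1)) k) ^ (b : ℕ)).IsWeightedHomogeneous w 0 := by
    have h0 : ((-1 : MvPolynomial (Fin (n + 1)) k) ^ (b : ℕ)) = MvPolynomial.C ((-1) ^ (b : ℕ)) := by
      rw [map_pow, map_neg, map_one]
    rw [h0]
    exact MvPolynomial.isWeightedHomogeneous_C w _
  have hfin := (hs.mul hp).mul hd'
  have hN : 0 + (g - w (j b)) + d' = e + g - ∑ b', w (j b') := by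
    have : ∑ i, w (j (b.succAbove i)) = e - d' := by omega
    rw [hsum]
    omega
  rw [hN] at hfin
  refine ⟨?_, hfin⟩
  rw [hsum]
  omega

/-- the weights of `ψ ∧ dG` -/
theorem ext_hom {k : Type} [Field k] {n c e g : ℕ} {w : Fin (n + 1) → ℕ}
    {ψ : (Fin c → Fin (n + 1)) → MvPolynomial (Fin (n + 1)) k}
    (hψ : ∀ j, ψ j ≠ 0 → ∃ d, (ψ j).IsWeightedHomogeneous w d ∧ d + ∑ b, w (j b) = e)
    {G : MvPolynomial (Fin (n + 1)) k} (hG : G.IsWeightedHomogeneous w g)
    (j : Fin (c + 1) → Fin (n + 1)) (hj : ext ψ G j ≠ 0) :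
    ∃ d, (ext ψ G j).IsWeightedHomogeneous w d ∧ d + ∑ b, w (j b) = e + g := by
  have hj' := hj
  unfold ext at hj'
  obtain ⟨b, -, hb⟩ := Finset.exists_ne_zero_of_sum_ne_zero hj'
  have hle := (C3_term hψ hG j b hb).1
  refine ⟨e + g - ∑ b, w (j b), ?_, by omega⟩
  unfold ext
  refine MvPolynomial.IsWeightedHomogeneous.sum Finset.univ _ _ fun b' _ => ?_
  by_cases h0 : (-1) ^ (b' : ℕ) * MvPolynomial.pderiv (j b') G *
      ψ (fun i => j (b'.succAbove i)) = 0
  · rw [h0]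
    exact MvPolynomial.isWeightedHomogeneous_zero k w _
  · exact (C3_term hψ hG j b' h0).2

end Pool.Agent.Lib.MP_1e3e9c_agC
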