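import Mathlib
import Pool.Agent.Lib.MP_1e3e9c_agC.C2
import Pool.Agent.Lib.MP_1e3e9c_agC.C3

/-!
# MP_1e3e9c_ag, project C, leaf C4: adjunction, several equations

PROOF. Induction on `s` (for all `G`, `g`; `S`, `c`, `e`, `ψ` fixed): `s = 0`: `ψ' = ψ` (`c + 0 = c`, `S ∪ ∅ = S`, the sum is `0`). `s + 1`: for `G ∘ Fin.castSucc` the induction hypothesis gives `ψ₁` for `S ∪ range (G ∘ castSucc)`, `c + s`, `e + ∑ ..`; take `ψ' = ext ψ₁ (G (Fin.last s))` and use `inv_step` (C2), `ext_hom` (C3):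
`insert (G (last s)) (S ∪ range (G ∘ castSucc)) = S ∪ range G` and `Fin.sum_univ_castSucc`; `c + (s + 1)` is `(c + s) + 1` by definition.
-/

set_option autoImplicit false

namespace Pool.Agent.Lib.MP_1e3e9c_agC

open Pool.Agent.Lib.MP_1e3e9c_agR Pool.Agent.Lib.MP_1e3e9c_agM Pool.Agent.Lib.MP_1e3e9c_agF

theorem adj {k : Type} [Field k] {n : ℕ} {w : Fin (n + 1) → ℕ} (s : ℕ) {c e : ℕ}
    {S : Set (MvPolynomial (Fin (n + 1)) k)}
    {ψ : (Fin c → Fin (n + 1)) → MvPolynomial (Fin (n + 1)) k}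
    (hψ : ∀ j, ψ j ≠ 0 → ∃ d, (ψ j).IsWeightedHomogeneous w d ∧ d + ∑ b, w (j b) = e)
    (G : Fin s → MvPolynomial (Fin (n + 1)) k) (g : Fin s → ℕ)
    (hG : ∀ i, (G i).IsWeightedHomogeneous w (g i)) :
    ∃ ψ' : (Fin (c + s) → Fin (n + 1)) → MvPolynomial (Fin (n + 1)) k,
      (∀ j, ψ' j ≠ 0 → ∃ d, (ψ' j).IsWeightedHomogeneous w d ∧
        d + ∑ b, w (j b) = e + ∑ i, g i) ∧
      ∀ x : Fin (n + 1) → k, InvAt S c ψ x → InvAt (S ∪ Set.range G) (c + s) ψ' x := by
  induction s with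
  | zero =>
    refine ⟨ψ, fun j hj => ?_, fun x hx => ?_⟩
    · obtain ⟨d, hd, hd'⟩ := hψ j hj
      exact ⟨d, hd, by simpa using hd'⟩
    · have h0 : S ∪ Set.range G = S := by
        rw [Set.range_eq_empty G, Set.union_empty]
      rw [h0]
      exact hx
  | succ s ih =>
    obtain ⟨ψ₁, h1, h2⟩ := ih (fun i => G i.castSucc) (fun i => g i.castSucc)
      (fun i => hG i.castSucc)
    refine ⟨ext ψ₁ (G (Fin.last s)), fun j hj => ?_, fun x hx => ?_⟩
    · obtain ⟨d, hd, hd'⟩ := ext_hom h1 (hG (Fin.last s)) j hj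
      refine ⟨d, hd, ?_⟩
      rw [Fin.sum_univ_castSucc]
      exact hd'.trans (add_assoc _ _ _)
    · have h3 := inv_step (h2 x hx) (G (Fin.last s))
      have h4 : insert (G (Fin.last s)) (S ∪ Set.range fun i : Fin s => G i.castSucc) =
          S ∪ Set.range G := by
        ext P
        simp only [Set.mem_insert_iff, Set.mem_union, Set.mem_range]
        constructor
        · rintro (h | h | ⟨i, h⟩)
          · exact Or.inr ⟨_, h.symm⟩
          · exact Or.inl h
          · exact Or.inr ⟨_, h⟩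
        · rintro (h | ⟨i, h⟩)
          · exact Or.inr (Or.inl h)
          · induction i using Fin.lastCases with
            | last => exact Or.inl h.symm
            | cast i => exact Or.inr (Or.inr ⟨i, h⟩)
      rw [h4] at h3
      exact h3

end Pool.Agent.Lib.MP_1e3e9c_agC
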