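import Mathlib
import Pool.Agent.Lib.MP_1e3e9c_agC.CDefs

/-!
# MP_1e3e9c_ag, project C, leaf C5: `Cnl` from the invariant

PROOF. `eq`: for `P l ∈ S`, `InvAt` gives `a` with `eval x (mnr P j) = a * eval x (ψ j)` for all `j`; both sides are `a * ψ i (x) * ψ j (x)`. `ne`: `LCI S c x` gives `P l ∈ S` with linearly independent gradients, so some `mnr P j (x) ≠ 0` (a `c × (n + 1)` matrix with independent rows has a nonzero `c`-minor;
there is a private lemma for this in Pool/Agent/Lib/MP_1e3e9c_agF/C3.lean, `C3_minor`, and in A6.lean), and it is `a * ψ j (x)`.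
-/

set_option autoImplicit false

namespace Pool.Agent.Lib.MP_1e3e9c_agC

open Pool.Agent.Lib.MP_1e3e9c_agR Pool.Agent.Lib.MP_1e3e9c_agM Pool.Agent.Lib.MP_1e3e9c_agF

private theorem C5_minor {k : Type} [Field k] {c m : ℕ} (A : Matrix (Fin c) (Fin m) k)
    (h : LinearIndependent k A.row) : ∃ j : Fin c → Fin m, (A.submatrix id j).det ≠ 0 := by
  have h1 : Module.finrank k (Submodule.span k (Set.range A.col)) = c := by
    rw [← Matrix.rank_eq_finrank_span_cols, h.rank_matrix, Fintype.card_fin]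
  obtain ⟨f, hf1, _, hf3⟩ := Submodule.exists_fun_fin_finrank_span_eq k (Set.range A.col)
  choose j hj using hf1
  refine ⟨fun b => j (finCongr h1.symm b), ?_⟩
  have h2 : LinearIndependent k (A.submatrix id (fun b => j (finCongr h1.symm b))).col := by
    have h3 := hf3.comp (finCongr h1.symm) (finCongr h1.symm).injective
    have h4 : (A.submatrix id (fun b => j (finCongr h1.symm b))).col = f ∘ (finCongr h1.symm) := by
      funext b
      exact hj _
    rw [h4]
    exact h3
  rw [Matrix.linearIndependent_cols_iff_isUnit, Matrix.isUnit_iff_isUnit_det] at h2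
  exact h2.ne_zero

private theorem C5_eval {k : Type} [Field k] {n c : ℕ} (P : Fin c → MvPolynomial (Fin (n + 1)) k)
    (j : Fin c → Fin (n + 1)) (x : Fin (n + 1) → k) :
    MvPolynomial.eval x (mnr P j) = (Matrix.submatrix (Matrix.of fun a => gr (P a) x) id j).det := by
  unfold mnr
  rw [RingHom.map_det]
  rfl

theorem cnl_of_inv {k : Type} [Field k] {n c e : ℕ} {w : Fin (n + 1) → ℕ}
    {S : Set (MvPolynomial (Fin (n + 1)) k)}
    {ψ : (Fin c → Fin (n + 1)) → MvPolynomial (Fin (n + 1)) k}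
    (hψ : ∀ j, ψ j ≠ 0 → ∃ d, (ψ j).IsWeightedHomogeneous w d ∧ d + ∑ b, w (j b) = e)
    (h : ∀ x : Fin (n + 1) → k, x ≠ 0 → (∀ P ∈ S, MvPolynomial.eval x P = 0) →
      InvAt S c ψ x ∧ LCI S c x) : Cnl w S c e ψ := by
  refine ⟨hψ, ?_, ?_⟩
  · intro x hx hS P hP i j
    obtain ⟨a, ha⟩ := (h x hx hS).1.1 P hP
    rw [ha i, ha j]
    ring
  · intro x hx hS
    obtain ⟨P, hP, hli, _⟩ := (h x hx hS).2
    obtain ⟨a, ha⟩ := (h x hx hS).1.1 P hP
    obtain ⟨j, hj⟩ := C5_minor (Matrix.of fun a => gr (P a) x) hli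
    refine ⟨j, fun h0 => hj ?_⟩
    rw [← C5_eval, ha j, h0, mul_zero]

end Pool.Agent.Lib.MP_1e3e9c_agC
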