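import Mathlib

/-!
# MP_1e3e9c_ag, project C, leaf C7: a generic field with derivations (MATHLIB ONLY)

PROOF. `K = FractionRing (MvPolynomial U k)`, `Ω = AlgebraicClosure K`, `τ u` the image of `X u`, `Algebra k Ω`. The `τ u` are algebraically independent over `k` (`MvPolynomial U k → K → Ω` is injective). Derivations: `MvPolynomial.pderiv u` extends to the field of fractions `K` and to the separable (characteristic zero) algebraic extension `Ω` of `K`.
In Mathlib: `Algebra.FormallyEtale` for localisations and for separable algebraic extensions (`Algebra.FormallyEtale.of_isSeparable`) gives (unique) extensions of derivations (`Derivation` lifts along formally etale maps: `KaehlerDifferential` base change isomorphism, `Differential`, `Derivation.liftOfSurjective`..);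
the team library has derivations with prescribed values on an algebraically independent family over any field of characteristic `0`: Pool/Agent/Lib/MP_17a322_nt/VA/G07b.lean (`D (z i) = v i`): copy the proof with private names (choose `v` = `1` at `u` and `0` elsewhere).
-/

set_option autoImplicit false

namespace Pool.Agent.Lib.MP_1e3e9c_agC

theorem exists_generic (k U : Type) [Field k] [CharZero k] [Finite U] :
    ∃ (Ω : Type) (_ : Field Ω) (_ : IsAlgClosed Ω) (_ : CharZero Ω) (_ : Algebra k Ω)
      (τ : U → Ω), AlgebraicIndependent k τ ∧ ∀ u, ∃ δ : Derivation k Ω Ω, δ (τ u) = 1 ∧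
        ∀ u', u' ≠ u → δ (τ u') = 0 := by
  classical
  let P := MvPolynomial U k
  let K := FractionRing P
  let Ω := AlgebraicClosure K
  have i1 : IsScalarTower P K Ω := inferInstance
  have i2 : IsScalarTower k P K := inferInstance
  have i3 : IsScalarTower k K Ω := inferInstance
  have i4 : IsScalarTower k P Ω := IsScalarTower.of_algebraMap_eq fun x => by
    rw [IsScalarTower.algebraMap_apply k K Ω, IsScalarTower.algebraMap_apply k P K,
      IsScalarTower.algebraMap_apply P K Ω]
  have hinj : Function.Injective (algebraMap P Ω) :=
    (algebraMap K Ω).injective.comp (IsFractionRing.injective P K)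
  have : CharZero P := charZero_of_injective_algebraMap (R := k) (MvPolynomial.C_injective U k)
  have : CharZero K := charZero_of_injective_algebraMap (IsFractionRing.injective P K)
  have : CharZero Ω := charZero_of_injective_algebraMap (algebraMap K Ω).injective
  refine ⟨Ω, inferInstance, inferInstance, inferInstance, inferInstance,
    fun u => algebraMap P Ω (MvPolynomial.X u), ?_, ?_⟩
  · have h1 : ∀ p : MvPolynomial U k,
        MvPolynomial.aeval (fun u => algebraMap P Ω (MvPolynomial.X u)) p = algebraMap P Ω p := by
      intro p
      have h2 : (MvPolynomial.aeval (fun u => algebraMap P Ω (MvPolynomial.X u)) :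
          MvPolynomial U k →ₐ[k] Ω) = IsScalarTower.toAlgHom k P Ω := by
        apply MvPolynomial.algHom_ext
        intro u
        rw [MvPolynomial.aeval_X]
        rfl
      rw [h2]
      rfl
    intro p q hpq
    have h3 : algebraMap P Ω p = algebraMap P Ω q := by
      rw [← h1 p, ← h1 q]
      exact hpq
    exact hinj h3
  · intro u
    have e1 : Algebra.FormallyEtale P K :=
      Algebra.FormallyEtale.of_isLocalization (nonZeroDivisors P)
    have e0 : Algebra.IsSeparable K Ω := inferInstance
    have e2 : Algebra.FormallyEtale K Ω := Algebra.FormallyEtale.of_isSeparable K Ω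
    have e3 : Algebra.FormallyEtale P Ω := Algebra.FormallyEtale.comp P K Ω
    have hbc : IsBaseChange Ω (KaehlerDifferential.map k k P Ω) :=
      KaehlerDifferential.isBaseChange_of_formallyEtale k P Ω
    let d : Derivation k P Ω :=
      (IsScalarTower.toAlgHom P P Ω).toLinearMap.compDer (MvPolynomial.pderiv u)
    have hd : ∀ p : P, d p = algebraMap P Ω (MvPolynomial.pderiv u p) := fun _ => rfl
    let δ : Derivation k Ω Ω :=
      (hbc.lift d.liftKaehlerDifferential).compDer (KaehlerDifferential.D k Ω)
    have hδ : ∀ p : P, δ (algebraMap P Ω p) = algebraMap P Ω (MvPolynomial.pderiv u p) := by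
      intro p
      have h4 : KaehlerDifferential.D k Ω (algebraMap P Ω p)
          = KaehlerDifferential.map k k P Ω (KaehlerDifferential.D k P p) := by
        rw [KaehlerDifferential.map_D]
      change hbc.lift d.liftKaehlerDifferential (KaehlerDifferential.D k Ω (algebraMap P Ω p)) = _
      rw [h4, hbc.lift_eq, Derivation.liftKaehlerDifferential_comp_D, hd]
    refine ⟨δ, ?_, ?_⟩
    · rw [hδ, MvPolynomial.pderiv_X_self, map_one]
    · intro u' hu'
      rw [hδ, MvPolynomial.pderiv_X_of_ne hu', map_zero]

end Pool.Agent.Lib.MP_1e3e9c_agC
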