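import Mathlib
import Pool.Agent.Lib.MP_1e3e9c_agC.CDefs

/-!
# MP_1e3e9c_ag, project C, leaf C8: Bertini's theorem by derivations

PROOF. Write `P l` for its image over `Ω`, `G' j = gG τ G₀ G M j = G j + (∑ α, τ (j, α) M j α) * G₀`. Suppose `∑ l, λ l ∇(P l)(x) + ∑ j, μ j ∇(G' j)(x) = 0`. Fix `j₁`, choose `α` with `(M j₁ α)(x) ≠ 0` (`hbpf`), and let `δ` be the derivation with `δ (τ (j₁, α)) = 1`, `δ (τ u) = 0` for the other `u` (`hτ`), trivial on `k`.
Apply `δ` to `P l (x) = 0` (coefficients in `k`): `∑ i, (∂_i P l)(x) δ(x i) = 0` (chain rule, by induction on the polynomial, or `Derivation` of `MvPolynomial.aeval`). Apply it to `G' j (x) = 0`: `∑ i, (∂_i (G' j))(x) δ(x i) + [j = j₁] (M j₁ α)(x) G₀(x) = 0` (`G' j (x) = G j (x) + (∑ α', τ (j, α') (M j α')(x)) G₀(x)`, the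
polynomials `G j`, `M j α'`, `G₀` have coefficients in `k`). Pair the relation with the vector `(δ (x i))_i`: `0 = ∑ l, λ l * 0 + ∑ j, μ j * (- [j = j₁] (M j₁ α)(x) G₀(x)) = - μ j₁ (M j₁ α)(x) G₀(x)`, so `μ j₁ = 0`. Then `∑ l, λ l ∇(P l)(x) = 0` and `λ = 0` by `hP`.
-/

set_option autoImplicit false

namespace Pool.Agent.Lib.MP_1e3e9c_agC

open Pool.Agent.Lib.MP_1e3e9c_agR Pool.Agent.Lib.MP_1e3e9c_agM Pool.Agent.Lib.MP_1e3e9c_agF

private theorem C8_aeval {k B : Type} [Field k] [CommRing B] [Algebra k B] (d : Derivation k B B) {n : ℕ}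
    (f : Fin (n + 1) → B) (P : MvPolynomial (Fin (n + 1)) k) :
    d (MvPolynomial.aeval f P) = ∑ i, MvPolynomial.aeval f (MvPolynomial.pderiv i P) * d (f i) := by
  classical
  induction P using MvPolynomial.induction_on with
  | C a =>
    rw [MvPolynomial.aeval_C, Derivation.map_algebraMap]
    refine (Finset.sum_eq_zero fun i _ => ?_).symm
    rw [MvPolynomial.pderiv_C, map_zero, zero_mul]
  | add p q hp hq =>
    rw [map_add, map_add, hp, hq, ← Finset.sum_add_distrib]
    refine Finset.sum_congr rfl fun i _ => ?_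
    rw [map_add, map_add, add_mul]
  | mul_X p j hp =>
    rw [map_mul, MvPolynomial.aeval_X, Derivation.leibniz, hp, smul_eq_mul, smul_eq_mul]
    have h1 : ∀ i, MvPolynomial.aeval f (MvPolynomial.pderiv i (p * MvPolynomial.X j)) * d (f i) =
        f j * (MvPolynomial.aeval f (MvPolynomial.pderiv i p) * d (f i)) +
          (if i = j then MvPolynomial.aeval f p * d (f i) else 0) := by
      intro i
      rw [Derivation.leibniz, smul_eq_mul, smul_eq_mul, map_add, map_mul, map_mul,
        MvPolynomial.aeval_X, MvPolynomial.pderiv_X]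
      by_cases hij : i = j
      · subst hij
        rw [if_pos rfl, Pi.single_eq_same, map_one]
        ring
      · rw [if_neg hij, Pi.single_eq_of_ne (Ne.symm hij), map_zero]
        ring
    rw [Finset.sum_congr rfl fun i _ => h1 i, Finset.sum_add_distrib, ← Finset.mul_sum,
      Finset.sum_ite_eq' Finset.univ j, if_pos (Finset.mem_univ j)]
    ring

private theorem C8_map {k Ω : Type} [Field k] [Field Ω] [Algebra k Ω] {n : ℕ} (x : Fin (n + 1) → Ω)
    (F : MvPolynomial (Fin (n + 1)) k) :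
    MvPolynomial.eval x (MvPolynomial.map (algebraMap k Ω) F) = MvPolynomial.aeval x F := by
  rw [MvPolynomial.eval_map, MvPolynomial.aeval_def]

private theorem C8_gr {k Ω : Type} [Field k] [Field Ω] [Algebra k Ω] {n : ℕ} (x : Fin (n + 1) → Ω)
    (F : MvPolynomial (Fin (n + 1)) k) (i : Fin (n + 1)) :
    gr (MvPolynomial.map (algebraMap k Ω) F) x i = MvPolynomial.aeval x (MvPolynomial.pderiv i F) := by
  unfold gr
  rw [MvPolynomial.pderiv_map, C8_map]

private theorem C8_grG {k Ω : Type} [Field k] [Field Ω] [Algebra k Ω] {n s N : ℕ}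
    (τ : Fin s × Fin N → Ω) (G₀ : MvPolynomial (Fin (n + 1)) k)
    (G : Fin s → MvPolynomial (Fin (n + 1)) k) (M : Fin s → Fin N → MvPolynomial (Fin (n + 1)) k)
    (x : Fin (n + 1) → Ω) (j : Fin s) (i : Fin (n + 1)) :
    gr (gG τ G₀ G M j) x i = MvPolynomial.aeval x (MvPolynomial.pderiv i (G j)) +
      ((∑ α, τ (j, α) * MvPolynomial.aeval x (MvPolynomial.pderiv i (M j α))) * MvPolynomial.aeval x G₀ +
        (∑ α, τ (j, α) * MvPolynomial.aeval x (M j α)) *
          MvPolynomial.aeval x (MvPolynomial.pderiv i G₀)) := by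
  unfold gr gG
  rw [map_add, map_add, MvPolynomial.pderiv_map, C8_map, Derivation.leibniz, smul_eq_mul, smul_eq_mul,
    map_add, map_mul, map_mul, MvPolynomial.pderiv_map, C8_map, C8_map, map_sum, map_sum, map_sum]
  have h1 : ∑ α, MvPolynomial.eval x (MvPolynomial.C (τ (j, α)) *
      MvPolynomial.map (algebraMap k Ω) (M j α)) = ∑ α, τ (j, α) * MvPolynomial.aeval x (M j α) :=
    Finset.sum_congr rfl fun α _ => by rw [map_mul, MvPolynomial.eval_C, C8_map]
  have h2 : ∑ α, MvPolynomial.eval x (MvPolynomial.pderiv i (MvPolynomial.C (τ (j, α)) *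
      MvPolynomial.map (algebraMap k Ω) (M j α))) =
      ∑ α, τ (j, α) * MvPolynomial.aeval x (MvPolynomial.pderiv i (M j α)) :=
    Finset.sum_congr rfl fun α _ => by
      rw [MvPolynomial.pderiv_C_mul, map_mul, MvPolynomial.eval_C,
        MvPolynomial.pderiv_map, C8_map]
  rw [h1, h2]
  ring

private theorem C8_evG {k Ω : Type} [Field k] [Field Ω] [Algebra k Ω] {n s N : ℕ}
    (τ : Fin s × Fin N → Ω) (G₀ : MvPolynomial (Fin (n + 1)) k)
    (G : Fin s → MvPolynomial (Fin (n + 1)) k) (M : Fin s → Fin N → MvPolynomial (Fin (n + 1)) k)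
    (x : Fin (n + 1) → Ω) (j : Fin s) :
    MvPolynomial.eval x (gG τ G₀ G M j) = MvPolynomial.aeval x (G j) +
      (∑ α, τ (j, α) * MvPolynomial.aeval x (M j α)) * MvPolynomial.aeval x G₀ := by
  unfold gG
  rw [map_add, map_mul, map_sum, C8_map, C8_map]
  have h1 : ∑ α, MvPolynomial.eval x (MvPolynomial.C (τ (j, α)) *
      MvPolynomial.map (algebraMap k Ω) (M j α)) = ∑ α, τ (j, α) * MvPolynomial.aeval x (M j α) :=
    Finset.sum_congr rfl fun α _ => by rw [map_mul, MvPolynomial.eval_C, C8_map]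
  rw [h1]

private theorem C8_derG {k Ω : Type} [Field k] [Field Ω] [Algebra k Ω] {n s N : ℕ}
    (τ : Fin s × Fin N → Ω) (G₀ : MvPolynomial (Fin (n + 1)) k)
    (G : Fin s → MvPolynomial (Fin (n + 1)) k) (M : Fin s → Fin N → MvPolynomial (Fin (n + 1)) k)
    (x : Fin (n + 1) → Ω) (j : Fin s) (δ : Derivation k Ω Ω) :
    δ (MvPolynomial.eval x (gG τ G₀ G M j)) = ∑ i, gr (gG τ G₀ G M j) x i * δ (x i) +
      (∑ α, δ (τ (j, α)) * MvPolynomial.aeval x (M j α)) * MvPolynomial.aeval x G₀ := by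
  rw [C8_evG, map_add, Derivation.leibniz, smul_eq_mul, smul_eq_mul, map_sum, C8_aeval δ x (G j),
    C8_aeval δ x G₀]
  have h1 : ∑ α, δ (τ (j, α) * MvPolynomial.aeval x (M j α)) =
      ∑ i, (∑ α, τ (j, α) * MvPolynomial.aeval x (MvPolynomial.pderiv i (M j α))) * δ (x i) +
        ∑ α, δ (τ (j, α)) * MvPolynomial.aeval x (M j α) := by
    have h2 : ∀ α, δ (τ (j, α) * MvPolynomial.aeval x (M j α)) =
        ∑ i, τ (j, α) * MvPolynomial.aeval x (MvPolynomial.pderiv i (M j α)) * δ (x i) +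
          δ (τ (j, α)) * MvPolynomial.aeval x (M j α) := by
      intro α
      rw [Derivation.leibniz, smul_eq_mul, smul_eq_mul, C8_aeval δ x (M j α), Finset.mul_sum,
        mul_comm (MvPolynomial.aeval x (M j α))]
      congr 1
      exact Finset.sum_congr rfl fun i _ => by ring
    rw [Finset.sum_congr rfl fun α _ => h2 α, Finset.sum_add_distrib, Finset.sum_comm]
    congr 1
    exact Finset.sum_congr rfl fun i _ => by rw [Finset.sum_mul]
  rw [h1]
  have h3 : ∑ i, gr (gG τ G₀ G M j) x i * δ (x i) =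
      ∑ i, MvPolynomial.aeval x (MvPolynomial.pderiv i (G j)) * δ (x i) +
        (MvPolynomial.aeval x G₀ * ∑ i, (∑ α, τ (j, α) *
          MvPolynomial.aeval x (MvPolynomial.pderiv i (M j α))) * δ (x i) +
        (∑ α, τ (j, α) * MvPolynomial.aeval x (M j α)) *
          ∑ i, MvPolynomial.aeval x (MvPolynomial.pderiv i G₀) * δ (x i)) := by
    rw [Finset.mul_sum, Finset.mul_sum, ← Finset.sum_add_distrib, ← Finset.sum_add_distrib]
    refine Finset.sum_congr rfl fun i _ => ?_
    rw [C8_grG]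
    ring
  rw [h3]
  ring

theorem bertini {k Ω : Type} [Field k] [Field Ω] [Algebra k Ω] {n s N c : ℕ}
    (τ : Fin s × Fin N → Ω)
    (hτ : ∀ u, ∃ δ : Derivation k Ω Ω, δ (τ u) = 1 ∧ ∀ u', u' ≠ u → δ (τ u') = 0)
    (G₀ : MvPolynomial (Fin (n + 1)) k) (G : Fin s → MvPolynomial (Fin (n + 1)) k)
    (M : Fin s → Fin N → MvPolynomial (Fin (n + 1)) k)
    (P : Fin c → MvPolynomial (Fin (n + 1)) k) (x : Fin (n + 1) → Ω)
    (hx : ∀ l, MvPolynomial.aeval x (P l) = 0) (hG : ∀ j, MvPolynomial.eval x (gG τ G₀ G M j) = 0)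
    (h0 : MvPolynomial.aeval x G₀ ≠ 0) (hbpf : ∀ j, ∃ α, MvPolynomial.aeval x (M j α) ≠ 0)
    (hP : LinearIndependent Ω fun l => gr (MvPolynomial.map (algebraMap k Ω) (P l)) x) :
    LinearIndependent Ω (Sum.elim (fun l => gr (MvPolynomial.map (algebraMap k Ω) (P l)) x)
      fun j => gr (gG τ G₀ G M j) x : Fin c ⊕ Fin s → Fin (n + 1) → Ω) := by
  classical
  rw [Fintype.linearIndependent_iff]
  intro g hg
  rw [Fintype.sum_sum_type] at hg
  simp only [Sum.elim_inl, Sum.elim_inr] at hg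
  have hgi : ∀ i, ∑ l, g (Sum.inl l) * gr (MvPolynomial.map (algebraMap k Ω) (P l)) x i +
      ∑ j, g (Sum.inr j) * gr (gG τ G₀ G M j) x i = 0 := by
    intro i
    have h1 := congrFun hg i
    rw [Pi.add_apply, Finset.sum_apply, Finset.sum_apply, Pi.zero_apply] at h1
    exact h1
  have hμ : ∀ j₁, g (Sum.inr j₁) = 0 := by
    intro j₁
    obtain ⟨α, hα⟩ := hbpf j₁
    obtain ⟨δ, hδ1, hδ2⟩ := hτ (j₁, α)
    have hPl : ∀ l, ∑ i, gr (MvPolynomial.map (algebraMap k Ω) (P l)) x i * δ (x i) = 0 := by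
      intro l
      have h1 := C8_aeval δ x (P l)
      rw [hx l, map_zero] at h1
      refine Eq.trans (Finset.sum_congr rfl fun i _ => ?_) h1.symm
      rw [C8_gr]
    have hGj : ∀ j, ∑ i, gr (gG τ G₀ G M j) x i * δ (x i) =
        if j = j₁ then - (MvPolynomial.aeval x (M j₁ α) * MvPolynomial.aeval x G₀) else 0 := by
      intro j
      have h1 := C8_derG τ G₀ G M x j δ
      rw [hG j, map_zero] at h1
      by_cases hj : j = j₁
      · subst hj
        rw [if_pos rfl]
        have h2 : ∑ α', δ (τ (j, α')) * MvPolynomial.aeval x (M j α') = MvPolynomial.aeval x (M j α) := by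
          rw [Finset.sum_eq_single α]
          · rw [hδ1, one_mul]
          · intro α' _ hne
            rw [hδ2 (j, α') (fun h => hne (Prod.ext_iff.1 h).2), zero_mul]
          · intro h
            exact absurd (Finset.mem_univ α) h
        rw [h2] at h1
        linear_combination -h1
      · rw [if_neg hj]
        have h2 : ∑ α', δ (τ (j, α')) * MvPolynomial.aeval x (M j α') = 0 :=
          Finset.sum_eq_zero fun α' _ => by
            rw [hδ2 (j, α') (fun h => hj (Prod.ext_iff.1 h).1), zero_mul]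
        rw [h2, zero_mul, add_zero] at h1
        exact h1.symm
    have h1 : ∑ i, (∑ l, g (Sum.inl l) * gr (MvPolynomial.map (algebraMap k Ω) (P l)) x i +
        ∑ j, g (Sum.inr j) * gr (gG τ G₀ G M j) x i) * δ (x i) = 0 :=
      Finset.sum_eq_zero fun i _ => by rw [hgi i, zero_mul]
    have h2 : ∑ i, (∑ l, g (Sum.inl l) * gr (MvPolynomial.map (algebraMap k Ω) (P l)) x i +
        ∑ j, g (Sum.inr j) * gr (gG τ G₀ G M j) x i) * δ (x i) =
        ∑ l, g (Sum.inl l) * ∑ i, gr (MvPolynomial.map (algebraMap k Ω) (P l)) x i * δ (x i) +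
        ∑ j, g (Sum.inr j) * ∑ i, gr (gG τ G₀ G M j) x i * δ (x i) := by
      simp only [add_mul, Finset.sum_add_distrib, Finset.sum_mul, Finset.mul_sum]
      congr 1
      · rw [Finset.sum_comm]
        exact Finset.sum_congr rfl fun l _ => Finset.sum_congr rfl fun i _ => by ring
      · rw [Finset.sum_comm]
        exact Finset.sum_congr rfl fun l _ => Finset.sum_congr rfl fun i _ => by ring
    rw [h2] at h1
    have h3 : ∑ l, g (Sum.inl l) * ∑ i, gr (MvPolynomial.map (algebraMap k Ω) (P l)) x i * δ (x i) = 0 :=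
      Finset.sum_eq_zero fun l _ => by rw [hPl l, mul_zero]
    have h4 : ∑ j, g (Sum.inr j) * ∑ i, gr (gG τ G₀ G M j) x i * δ (x i) =
        g (Sum.inr j₁) * - (MvPolynomial.aeval x (M j₁ α) * MvPolynomial.aeval x G₀) := by
      rw [Finset.sum_eq_single j₁]
      · rw [hGj, if_pos rfl]
      · intro j _ hne
        rw [hGj, if_neg hne, mul_zero]
      · intro h
        exact absurd (Finset.mem_univ j₁) h
    rw [h3, h4, zero_add] at h1
    exact (mul_eq_zero.1 h1).resolve_right (neg_ne_zero.2 (mul_ne_zero hα h0))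
  have hlam : ∀ l, g (Sum.inl l) = 0 := by
    rw [Fintype.linearIndependent_iff] at hP
    refine hP (fun l => g (Sum.inl l)) ?_
    funext i
    have h1 := hgi i
    have h2 : ∑ j, g (Sum.inr j) * gr (gG τ G₀ G M j) x i = 0 :=
      Finset.sum_eq_zero fun j _ => by rw [hμ j, zero_mul]
    rw [h2, add_zero] at h1
    rw [Finset.sum_apply, Pi.zero_apply]
    exact h1
  rintro (l | j)
  · exact hlam l
  · exact hμ j

end Pool.Agent.Lib.MP_1e3e9c_agC
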