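import Mathlib
import Pool.Agent.Lib.MP_1e3e9c_agF.I4
import Pool.Agent.Lib.MP_1e3e9c_agC.C1
import Pool.Agent.Lib.MP_1e3e9c_agC.C4
import Pool.Agent.Lib.MP_1e3e9c_agC.C5
import Pool.Agent.Lib.MP_1e3e9c_agC.C7
import Pool.Agent.Lib.MP_1e3e9c_agC.C8
import Pool.Agent.Lib.MP_1e3e9c_agC.C10
import Pool.Agent.Lib.MP_1e3e9c_agC.C11
import Pool.Agent.Lib.MP_1e3e9c_agC.C12
import Pool.Agent.Lib.MP_1e3e9c_agC.C13
import Pool.Agent.Lib.MP_1e3e9c_agC.C15
import Pool.Agent.Lib.MP_1e3e9c_agC.C16
import Pool.Agent.Lib.MP_1e3e9c_agC.C17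

/-!
# MP_1e3e9c_ag, project C: rational curves on complete intersections of codimension `s + 1` in `W` with `K_W = O(e - ∑ w_i)`,
`W` smooth outside a set of dimension `< s`
-/

set_option autoImplicit false

namespace Pool.Agent.Lib.MP_1e3e9c_agC

open Pool.Agent.Lib.MP_1e3e9c_agR Pool.Agent.Lib.MP_1e3e9c_agM Pool.Agent.Lib.MP_1e3e9c_agF

/-- `x` is a smooth point of the complete intersection `G₀ = G_1 = .. = G_s = 0` in the zero set of `S`: there are `c` elements of `S`
such that their gradients and those of `G₀, G_1, .., G_s` at `x` are linearly independent. -/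
def Sec {k : Type} [Field k] {n s : ℕ} (S : Set (MvPolynomial (Fin (n + 1)) k))
    (G₀ : MvPolynomial (Fin (n + 1)) k) (G : Fin s → MvPolynomial (Fin (n + 1)) k) (c : ℕ)
    (x : Fin (n + 1) → k) : Prop :=
  ∃ P : Fin c → MvPolynomial (Fin (n + 1)) k, (∀ l, P l ∈ S) ∧
    LinearIndependent k (Sum.elim (fun l => gr (P l) x)
      (Fin.cons (gr G₀ x) fun j => gr (G j) x : Fin (s + 1) → Fin (n + 1) → k))

theorem aeval_gG {k Ω : Type} [Field k] [Field Ω] [Algebra k Ω] {n s N : ℕ}
    (τ : Fin s × Fin N → Ω) (G₀ : MvPolynomial (Fin (n + 1)) k)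
    (G : Fin s → MvPolynomial (Fin (n + 1)) k) (M : Fin s → Fin N → MvPolynomial (Fin (n + 1)) k)
    (x : Fin (n + 1) → Ω) (j : Fin s) :
    MvPolynomial.eval x (gG τ G₀ G M j) = MvPolynomial.aeval x (G j) +
      (∑ α, τ (j, α) * MvPolynomial.aeval x (M j α)) * MvPolynomial.aeval x G₀ := by
  simp only [gG, map_add, map_mul, map_sum, MvPolynomial.eval_C, MvPolynomial.eval_map,
    MvPolynomial.aeval_def]

theorem eval_map_eq {k Ω : Type} [Field k] [Field Ω] [Algebra k Ω] {n : ℕ}
    (x : Fin (n + 1) → Ω) (P : MvPolynomial (Fin (n + 1)) k) :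
    MvPolynomial.eval x (MvPolynomial.map (algebraMap k Ω) P) = MvPolynomial.aeval x P := by
  rw [MvPolynomial.eval_map, MvPolynomial.aeval_def]

theorem aeval_bc {k Ω : Type} [Field k] [Field Ω] [Algebra k Ω] {n : ℕ} (y : Fin (n + 1) → k)
    (H : MvPolynomial (Fin (n + 1)) k) :
    MvPolynomial.aeval (bc Ω y) H = algebraMap k Ω (MvPolynomial.eval y H) := by
  have h1 := MvPolynomial.aeval_algebraMap_apply Ω y H
  rw [MvPolynomial.aeval_eq_eval] at h1
  exact h1

theorem spz_bc {k Ω : Type} [Field k] [Field Ω] [Algebra k Ω] {n : ℕ} (y : Fin (n + 1) → k) :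
    Spz (bc Ω y) y := by
  intro H hH
  rw [aeval_bc] at hH
  exact (map_eq_zero (algebraMap k Ω)).1 hH

/-- `LinearIndependent` of the gradients over `Ω` -/
theorem sec_spz {k Ω : Type} [Field k] [Field Ω] [Algebra k Ω] {n s N c : ℕ}
    {S : Set (MvPolynomial (Fin (n + 1)) k)} (τ : Fin s × Fin N → Ω)
    {G₀ : MvPolynomial (Fin (n + 1)) k} {G : Fin s → MvPolynomial (Fin (n + 1)) k}
    (M : Fin s → Fin N → MvPolynomial (Fin (n + 1)) k) {x : Fin (n + 1) → Ω}
    {y : Fin (n + 1) → k} (hxy : Spz x y) (h0 : MvPolynomial.aeval x G₀ = 0)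
    (h : Sec S G₀ G c y) :
    ∃ P : Fin c → MvPolynomial (Fin (n + 1)) k, (∀ l, P l ∈ S) ∧
      LinearIndependent Ω (Sum.elim (fun l => gr (MvPolynomial.map (algebraMap k Ω) (P l)) x)
        (Fin.cons (gr (MvPolynomial.map (algebraMap k Ω) G₀) x) fun j =>
          gr (gG τ G₀ G M j) x : Fin (s + 1) → Fin (n + 1) → Ω)) := by
  obtain ⟨P, hP, hli⟩ := h
  refine ⟨P, hP, li_gG τ G₀ G M h0 _ ?_⟩
  have h1 : (fun l => gr ((Sum.elim P (Fin.cons G₀ G : Fin (s + 1) → _)) l) y) =
      (Sum.elim (fun l => gr (P l) y)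
        (Fin.cons (gr G₀ y) fun j => gr (G j) y : Fin (s + 1) → Fin (n + 1) → k)) := by
    funext l
    rcases l with l | l
    · rfl
    · refine Fin.cases ?_ (fun j => ?_) l
      · rfl
      · rfl
  have h2 := li_spz hxy (Sum.elim P (Fin.cons G₀ G : Fin (s + 1) → _)) (by rw [h1]; exact hli)
  have h3 : (fun l => gr (MvPolynomial.map (algebraMap k Ω)
      ((Sum.elim P (Fin.cons G₀ G : Fin (s + 1) → _)) l)) x) =
      (Sum.elim (fun l => gr (MvPolynomial.map (algebraMap k Ω) (P l)) x)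
        (Fin.cons (gr (MvPolynomial.map (algebraMap k Ω) G₀) x) fun j =>
          gr (MvPolynomial.map (algebraMap k Ω) (G j)) x : Fin (s + 1) → Fin (n + 1) → Ω)) := by
    funext l
    rcases l with l | l
    · rfl
    · refine Fin.cases ?_ (fun j => ?_) l
      · rfl
      · rfl
  rw [← h3]
  exact h2

theorem mem_oS {k Ω : Type} [Field k] [Field Ω] [Algebra k Ω] {n : ℕ}
    {S : Set (MvPolynomial (Fin (n + 1)) k)} {x : Fin (n + 1) → Ω} :
    (∀ P ∈ oS Ω S, MvPolynomial.eval x P = 0) ↔ ∀ P ∈ S, MvPolynomial.aeval x P = 0 := by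
  constructor
  · intro h P hP
    rw [← eval_map_eq]
    exact h _ ⟨P, hP, rfl⟩
  · rintro h _ ⟨P, hP, rfl⟩
    rw [eval_map_eq]
    exact h P hP

/-- The generic complete intersection is smooth. -/
theorem key {k Ω : Type} [Field k] [IsAlgClosed k] [Field Ω] [IsAlgClosed Ω] [Algebra k Ω]
    {n s c g₀ N : ℕ} {w : Fin (n + 1) → ℕ} (hw : ∀ i, 0 < w i)
    {S : Set (MvPolynomial (Fin (n + 1)) k)} {G₀ : MvPolynomial (Fin (n + 1)) k}
    (hG₀ : G₀.IsWeightedHomogeneous w g₀) {G : Fin s → MvPolynomial (Fin (n + 1)) k}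
    {g : Fin s → ℕ} (hG : ∀ j, (G j).IsWeightedHomogeneous w (g j)) (hg : ∀ j, g₀ ≤ g j)
    {ψ : (Fin c → Fin (n + 1)) → MvPolynomial (Fin (n + 1)) k}
    {B : Set (Fin (n + 1) → k)} (hB : wdm w B ≤ ((s : ℕ) : WithBot ℕ∞))
    (hW : ∀ x : Fin (n + 1) → k, x ≠ 0 → (∀ P ∈ S, MvPolynomial.eval x P = 0) → x ∉ B →
      Gd w S c ψ x)
    (hbp : ∀ x : Fin (n + 1) → k, x ≠ 0 → (∀ P ∈ S, MvPolynomial.eval x P = 0) →
      MvPolynomial.eval x G₀ ≠ 0 → ∀ j, ∃ M : MvPolynomial (Fin (n + 1)) k,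
        M.IsWeightedHomogeneous w (g j - g₀) ∧ MvPolynomial.eval x M ≠ 0)
    (hX : ∀ x : Fin (n + 1) → k, x ≠ 0 → (∀ P ∈ S, MvPolynomial.eval x P = 0) →
      MvPolynomial.eval x G₀ = 0 → (∀ j, MvPolynomial.eval x (G j) = 0) →
        Gd w S c ψ x ∧ Sec S G₀ G c x)
    {M : Fin s → Fin N → MvPolynomial (Fin (n + 1)) k}
    (hM : ∀ j α, (M j α).IsWeightedHomogeneous w (g j - g₀))
    (hspan : ∀ j F, F.IsWeightedHomogeneous w (g j - g₀) → F ∈ Submodule.span k (Set.range (M j)))
    {τ : Fin s × Fin N → Ω} (hτ : AlgebraicIndependent k τ)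
    (hδ : ∀ u, ∃ δ : Derivation k Ω Ω, δ (τ u) = 1 ∧ ∀ u', u' ≠ u → δ (τ u') = 0)
    {x : Fin (n + 1) → Ω} (hx0 : x ≠ 0) (hxS : ∀ P ∈ S, MvPolynomial.aeval x P = 0)
    (hxG : ∀ j, MvPolynomial.eval x (gG τ G₀ G M j) = 0) :
    Gd w (oS Ω S) c (fun j => MvPolynomial.map (algebraMap k Ω) (ψ j)) x ∧
      LCI (oS Ω S ∪ Set.range (gG τ G₀ G M)) (c + s) x := by
  obtain ⟨i₀, hi₀⟩ : ∃ i, x i ≠ 0 := by
    by_contra hcon
    push Not at hcon
    exact hx0 (funext hcon)
  have hy0 : ∀ {y : Fin (n + 1) → k}, y i₀ ≠ 0 → y ≠ 0 := fun h h' => h (by rw [h']; rfl)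
  by_cases h0 : MvPolynomial.aeval x G₀ = 0
  · have hxG' : ∀ j, MvPolynomial.aeval x (G j) = 0 := by
      intro j
      have h1 := hxG j
      rw [aeval_gG, h0, mul_zero, add_zero] at h1
      exact h1
    have hXy : ∀ y : Fin (n + 1) → k, Spz x y → y i₀ ≠ 0 → Gd w S c ψ y ∧ Sec S G₀ G c y :=
      fun y hxy hy => hX y (hy0 hy) (fun P hP => hxy P (hxS P hP)) (hxy _ h0)
        fun j => hxy _ (hxG' j)
    have hFx : MvPolynomial.aeval x (MvPolynomial.X i₀ : MvPolynomial (Fin (n + 1)) k) ≠ 0 := by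
      rw [MvPolynomial.aeval_X]
      exact hi₀
    have hgd : Gd w (oS Ω S) c (fun j => MvPolynomial.map (algebraMap k Ω) (ψ j)) x :=
      gd_spz hFx fun y hxy hy => (hXy y hxy (by rwa [MvPolynomial.eval_X] at hy)).1
    refine ⟨hgd, lci_union hgd.lci fun P hP hli => ?_⟩
    obtain ⟨y, hy, hxy⟩ := spec x _ hFx
    rw [MvPolynomial.eval_X] at hy
    obtain ⟨P₁, hP₁, hli₁⟩ := sec_spz τ M hxy h0 (hXy y hxy hy).2
    have h1 : LinearIndependent Ω (Sum.elim
        (fun l => gr (MvPolynomial.map (algebraMap k Ω) (P₁ l)) x)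
        (fun j => gr (gG τ G₀ G M j) x)) := by
      have h2 := hli₁.comp (Sum.map id Fin.succ)
        (Function.Injective.sumMap Function.injective_id (Fin.succ_injective s))
      have h3 : (Sum.elim (fun l => gr (MvPolynomial.map (algebraMap k Ω) (P₁ l)) x)
          (Fin.cons (gr (MvPolynomial.map (algebraMap k Ω) G₀) x) fun j =>
            gr (gG τ G₀ G M j) x : Fin (s + 1) → Fin (n + 1) → Ω)) ∘ Sum.map id Fin.succ =
          Sum.elim (fun l => gr (MvPolynomial.map (algebraMap k Ω) (P₁ l)) x)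
            (fun j => gr (gG τ G₀ G M j) x) := by
        funext l
        rcases l with l | l
        · rfl
        · rfl
      rw [h3] at h2
      exact h2
    exact li_change (mem_oS.2 hxS) hgd.lci _ (fun l => ⟨P₁ l, hP₁ l, rfl⟩) hP h1 hli
  · have hbpf : ∀ j, ∃ α, MvPolynomial.aeval x (M j α) ≠ 0 := by
      intro j
      by_contra hcon
      push Not at hcon
      obtain ⟨y, hy, hxy⟩ := spec x (G₀ * MvPolynomial.X i₀) (by
        rw [map_mul, MvPolynomial.aeval_X]
        exact mul_ne_zero h0 hi₀)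
      rw [map_mul, MvPolynomial.eval_X] at hy
      obtain ⟨F, hF, hFy⟩ := hbp y (hy0 (right_ne_zero_of_mul hy))
        (fun P hP => hxy P (hxS P hP)) (left_ne_zero_of_mul hy) j
      apply hFy
      have h1 := hspan j F hF
      refine Submodule.span_induction (p := fun F _ => MvPolynomial.eval y F = 0) ?_ ?_ ?_ ?_ h1
      · rintro _ ⟨α, rfl⟩
        exact hxy _ (hcon α)
      · exact map_zero _
      · intro a b _ _ ha hb
        rw [map_add, ha, hb, add_zero]
      · intro a b _ hb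
        rw [MvPolynomial.smul_eval, hb, mul_zero]
    obtain ⟨F, hF, hFB⟩ := avoid hw hτ hG₀ hG hg hM hB hx0 h0 hxG hbpf
    have hFx : MvPolynomial.aeval x (F * MvPolynomial.X i₀) ≠ 0 := by
      rw [map_mul, MvPolynomial.aeval_X]
      exact mul_ne_zero hF hi₀
    have hgd : Gd w (oS Ω S) c (fun j => MvPolynomial.map (algebraMap k Ω) (ψ j)) x := by
      refine gd_spz hFx fun y hxy hy => ?_
      rw [map_mul, MvPolynomial.eval_X] at hy
      exact hW y (hy0 (right_ne_zero_of_mul hy)) (fun P hP => hxy P (hxS P hP))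
        fun hyB => left_ne_zero_of_mul hy (hFB y hyB)
    refine ⟨hgd, lci_union hgd.lci fun P hP hli => ?_⟩
    choose P' hP' hPP' using hP
    have h2 : (fun l => gr (P l) x) =
        fun l => gr (MvPolynomial.map (algebraMap k Ω) (P' l)) x := by
      funext l
      rw [hPP' l]
    rw [h2] at hli ⊢
    exact bertini τ hδ G₀ G M P' x (fun l => hxS _ (hP' l)) hxG h0 hbpf hli

theorem ci_rational_curve {k : Type} [Field k] [IsAlgClosed k] [CharZero k] {n s c e g₀ : ℕ}
    {w : Fin (n + 1) → ℕ} (hw : ∀ i, 0 < w i) (hg₀ : 0 < g₀) (hn : c + s + 4 ≤ n)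
    {S : Set (MvPolynomial (Fin (n + 1)) k)} (hS : ∀ P ∈ S, ∃ m, P.IsWeightedHomogeneous w m)
    {G₀ : MvPolynomial (Fin (n + 1)) k} (hG₀ : G₀.IsWeightedHomogeneous w g₀)
    {G : Fin s → MvPolynomial (Fin (n + 1)) k} {g : Fin s → ℕ}
    (hG : ∀ j, (G j).IsWeightedHomogeneous w (g j)) (hg : ∀ j, g₀ ≤ g j)
    {ψ : (Fin c → Fin (n + 1)) → MvPolynomial (Fin (n + 1)) k}
    (hψ : ∀ j, ψ j ≠ 0 → ∃ d, (ψ j).IsWeightedHomogeneous w d ∧ d + ∑ b, w (j b) = e)
    {B : Set (Fin (n + 1) → k)} (hB : wdm w B ≤ ((s : ℕ) : WithBot ℕ∞))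
    (hW : ∀ x : Fin (n + 1) → k, x ≠ 0 → (∀ P ∈ S, MvPolynomial.eval x P = 0) → x ∉ B →
      Gd w S c ψ x)
    (hbp : ∀ x : Fin (n + 1) → k, x ≠ 0 → (∀ P ∈ S, MvPolynomial.eval x P = 0) →
      MvPolynomial.eval x G₀ ≠ 0 → ∀ j, ∃ M : MvPolynomial (Fin (n + 1)) k,
        M.IsWeightedHomogeneous w (g j - g₀) ∧ MvPolynomial.eval x M ≠ 0)
    (hX : ∃ x : Fin (n + 1) → k, x ≠ 0 ∧ (∀ P ∈ S, MvPolynomial.eval x P = 0) ∧
      MvPolynomial.eval x G₀ = 0 ∧ (∀ j, MvPolynomial.eval x (G j) = 0) ∧ Sec S G₀ G c x)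
    (hX' : 0 < s → ∀ x : Fin (n + 1) → k, x ≠ 0 → (∀ P ∈ S, MvPolynomial.eval x P = 0) →
      MvPolynomial.eval x G₀ = 0 → (∀ j, MvPolynomial.eval x (G j) = 0) →
        Gd w S c ψ x ∧ Sec S G₀ G c x)
    (he : e + g₀ + ∑ j, g j ≤ ∑ i, w i) : HasRat w (insert G₀ (S ∪ Set.range G)) := by
  rcases Nat.eq_zero_or_pos s with hs | hs
  · -- one divisor
    subst hs
    have hBe : ∀ x ∈ B, x = 0 := fun x hx => eq_zero_of_wdm hw (by exact_mod_cast hB) hx
    have hW' : ∀ x : Fin (n + 1) → k, x ≠ 0 → (∀ P ∈ S, MvPolynomial.eval x P = 0) →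
        Gd w S c ψ x := fun x hx hxS => hW x hx hxS fun hxB => hx (hBe x hxB)
    obtain ⟨v, hv0, hvS, hvG, -, P, hP, hli⟩ := hX
    have hr : S ∪ Set.range G = S := by
      rw [Set.range_eq_empty, Set.union_empty]
    rw [hr]
    have hcnl : Cnl w S c e ψ := ⟨hψ, fun x hx hxS => (hW' x hx hxS).eq,
      fun x hx hxS => (hW' x hx hxS).ne⟩
    rw [Finset.univ_eq_empty, Finset.sum_empty, add_zero] at he
    refine fano_rational_curve (m := ∑ i, w i - e) hw hg₀ (by omega) (by omega) hS hG₀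
      (fun x hx hxS => ⟨(hW' x hx hxS).lci, (hW' x hx hxS).gc⟩) hcnl (by omega) hv0 hvS hvG
      ⟨P, hP, ?_⟩
    let f : Fin (c + 1) → Fin c ⊕ Fin (0 + 1) := Fin.cons (Sum.inr 0) Sum.inl
    have hf : Function.Injective f := by
      intro a b
      refine Fin.cases ?_ (fun a => ?_) a
      · refine Fin.cases ?_ (fun b => ?_) b
        · intro _
          rfl
        · intro hab
          exact absurd hab (by simp [f])
      · refine Fin.cases ?_ (fun b => ?_) b
        · intro hab
          exact absurd hab (by simp [f])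
        · intro hab
          have h1 : a = b := by simpa [f] using hab
          rw [h1]
    have h2 := hli.comp f hf
    have h3 : (Sum.elim (fun l => gr (P l) v)
        (Fin.cons (gr G₀ v) fun j => gr (G j) v : Fin (0 + 1) → Fin (n + 1) → k)) ∘ f =
        (Fin.cons (gr G₀ v) fun l => gr (P l) v : Fin (c + 1) → Fin (n + 1) → k) := by
      funext l
      refine Fin.cases ?_ (fun l => ?_) l
      · rfl
      · rfl
    rw [h3] at h2
    exact h2
  · obtain ⟨N, M, hM, hspan⟩ := exists_forms k hw fun j => g j - g₀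
    obtain ⟨Ω, _, _, _, _, τ, hτ, hδ⟩ := exists_generic k (Fin s × Fin N)
    have hK := @key k Ω _ _ _ _ _ n s c g₀ N w hw S G₀ hG₀ G g hG hg ψ B hB hW hbp (hX' hs) M hM
      hspan τ hτ hδ
    -- the weights
    have hmaphom : ∀ {P : MvPolynomial (Fin (n + 1)) k} {d : ℕ}, P.IsWeightedHomogeneous w d →
        (MvPolynomial.map (algebraMap k Ω) P).IsWeightedHomogeneous w d := by
      intro P d hP m hm
      rw [MvPolynomial.coeff_map] at hm
      exact hP fun h => hm (by rw [h, map_zero])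
    have hSS : ∀ P ∈ oS Ω S ∪ Set.range (gG τ G₀ G M), ∃ m, P.IsWeightedHomogeneous w m := by
      rintro P (⟨P, hP, rfl⟩ | ⟨j, rfl⟩)
      · obtain ⟨m, hm⟩ := hS P hP
        exact ⟨m, hmaphom hm⟩
      · exact ⟨g j, hom_gG τ hG₀ hG hg hM j⟩
    obtain ⟨ψ', hψ'1, hψ'2⟩ := adj s (c := c) (e := e) (w := w) (S := oS Ω S)
      (ψ := fun j => MvPolynomial.map (algebraMap k Ω) (ψ j)) (by
        intro j hj
        obtain ⟨d, hd, hd'⟩ := hψ j fun h => hj (by rw [h, map_zero])
        exact ⟨d, hmaphom hd, hd'⟩) (gG τ G₀ G M) g fun j => hom_gG τ hG₀ hG hg hM j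
    have hzero : ∀ x : Fin (n + 1) → Ω,
        (∀ P ∈ oS Ω S ∪ Set.range (gG τ G₀ G M), MvPolynomial.eval x P = 0) →
        (∀ P ∈ S, MvPolynomial.aeval x P = 0) ∧
          ∀ j, MvPolynomial.eval x (gG τ G₀ G M j) = 0 := fun x hx =>
      ⟨mem_oS.1 fun P hP => hx P (Or.inl hP), fun j => hx _ (Or.inr ⟨j, rfl⟩)⟩
    have hcnl : Cnl w (oS Ω S ∪ Set.range (gG τ G₀ G M)) (c + s) (e + ∑ j, g j) ψ' := by
      refine cnl_of_inv hψ'1 fun x hx0 hx => ?_
      obtain ⟨h1, h2⟩ := hzero x hx
      obtain ⟨h3, h4⟩ := hK hx0 h1 h2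
      exact ⟨hψ'2 x (inv_of_lci (mem_oS.2 h1) h3.lci h3.eq h3.ne), h4⟩
    obtain ⟨v, hv0, hvS, hvG₀, hvG, hsec⟩ := hX
    have hbc : ∀ P : MvPolynomial (Fin (n + 1)) k,
        MvPolynomial.aeval (bc Ω v) P = algebraMap k Ω (MvPolynomial.eval v P) := aeval_bc v
    have hv0' : bc Ω v ≠ 0 := by
      intro h
      apply hv0
      funext i
      have h1 := congrFun h i
      exact (map_eq_zero (algebraMap k Ω)).1 h1
    have hvG₀' : MvPolynomial.aeval (bc Ω v) G₀ = 0 := by rw [hbc, hvG₀, map_zero]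
    obtain ⟨P, hP, hli⟩ := sec_spz τ M (spz_bc v) hvG₀' hsec
    have hrat : HasRat w (insert (MvPolynomial.map (algebraMap k Ω) G₀)
        (oS Ω S ∪ Set.range (gG τ G₀ G M))) := by
      refine fano_rational_curve (m := ∑ i, w i - (e + ∑ j, g j)) (v₀ := bc Ω v) hw hg₀ (by omega)
        (by omega) hSS (hmaphom hG₀) (fun x hx0 hx => ?_) hcnl (by omega) hv0' ?_ ?_ ?_
      · obtain ⟨h1, h2⟩ := hzero x hx
        obtain ⟨h3, h4⟩ := hK hx0 h1 h2
        exact ⟨h4, h3.gc⟩
      · rintro P (⟨P, hP, rfl⟩ | ⟨j, rfl⟩)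
        · rw [eval_map_eq, hbc, hvS P hP, map_zero]
        · rw [aeval_gG, hvG₀', mul_zero, add_zero, hbc, hvG j, map_zero]
      · rw [eval_map_eq, hvG₀']
      · refine ⟨Fin.append (fun l => MvPolynomial.map (algebraMap k Ω) (P l)) (gG τ G₀ G M), ?_, ?_⟩
        · intro l
          refine Fin.addCases (fun l => ?_) (fun j => ?_) l
          · rw [Fin.append_left]
            exact Or.inl ⟨P l, hP l, rfl⟩
          · rw [Fin.append_right]
            exact Or.inr ⟨j, rfl⟩
        · let f : Fin (c + s + 1) → Fin c ⊕ Fin (s + 1) :=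
            Fin.cons (Sum.inr 0) (Fin.append Sum.inl fun j => Sum.inr j.succ)
          have hf : Function.Injective f := by
            intro a b
            refine Fin.cases ?_ (fun a => ?_) a
            · refine Fin.cases ?_ (fun b => ?_) b
              · intro _
                rfl
              · intro hab
                refine absurd hab ?_
                refine Fin.addCases (fun l => ?_) (fun j => ?_) b
                · simp [f]
                · simp [f]
                  exact (Fin.succ_ne_zero j).symm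
            · refine Fin.cases ?_ (fun b => ?_) b
              · intro hab
                refine absurd hab ?_
                refine Fin.addCases (fun l => ?_) (fun j => ?_) a
                · simp [f]
                · simp [f]
              · intro hab
                have hab' : (Fin.append Sum.inl fun j => Sum.inr j.succ :
                    Fin (c + s) → Fin c ⊕ Fin (s + 1)) a =
                    (Fin.append Sum.inl fun j => Sum.inr j.succ) b := hab
                have h1 : a = b := by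
                  revert hab'
                  refine Fin.addCases (fun l => ?_) (fun j => ?_) a
                  · refine Fin.addCases (fun l' => ?_) (fun j' => ?_) b
                    · rw [Fin.append_left, Fin.append_left]
                      intro h
                      rw [Sum.inl.inj h]
                    · rw [Fin.append_left, Fin.append_right]
                      intro h
                      cases h
                  · refine Fin.addCases (fun l' => ?_) (fun j' => ?_) b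
                    · rw [Fin.append_left, Fin.append_right]
                      intro h
                      cases h
                    · rw [Fin.append_right, Fin.append_right]
                      intro h
                      rw [Fin.succ_injective _ (Sum.inr.inj h)]
                rw [h1]
          have h2 := hli.comp f hf
          have h3 : (Sum.elim
              (fun l => gr (MvPolynomial.map (algebraMap k Ω) (P l)) (bc Ω v))
              (Fin.cons (gr (MvPolynomial.map (algebraMap k Ω) G₀) (bc Ω v)) fun j =>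
                gr (gG τ G₀ G M j) (bc Ω v) : Fin (s + 1) → Fin (n + 1) → Ω)) ∘ f =
              (Fin.cons (gr (MvPolynomial.map (algebraMap k Ω) G₀) (bc Ω v)) fun l =>
                gr (Fin.append (fun l => MvPolynomial.map (algebraMap k Ω) (P l))
                  (gG τ G₀ G M) l) (bc Ω v) : Fin (c + s + 1) → Fin (n + 1) → Ω) := by
            funext l
            refine Fin.cases ?_ (fun l => ?_) l
            · rfl
            · refine Fin.addCases (fun l => ?_) (fun j => ?_) l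
              · simp only [Function.comp_apply, f, Fin.cons_succ, Fin.append_left, Sum.elim_inl]
              · simp only [Function.comp_apply, f, Fin.cons_succ, Fin.append_right, Sum.elim_inr]
          rw [h3] at h2
          exact h2
    -- descent
    refine descend (Ω := Ω) hw (fun x hx0 hx => ?_) ?_
    · refine (hK hx0 (fun P hP => hx P (Or.inr (Or.inl hP))) fun j => ?_).1.gc
      rw [aeval_gG, hx G₀ (Or.inl rfl), mul_zero, add_zero]
      exact hx _ (Or.inr (Or.inr ⟨j, rfl⟩))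
    · obtain ⟨p, hp, hst⟩ := hrat
      refine ⟨p, fun t => ?_, hst⟩
      refine mem_oS.2 ?_
      have h1 := hp t
      have h2 : MvPolynomial.aeval (val p t) G₀ = 0 := by
        rw [← eval_map_eq]
        exact h1 _ (Or.inl rfl)
      rintro P (rfl | hP | ⟨j, rfl⟩)
      · exact h2
      · rw [← eval_map_eq]
        exact h1 _ (Or.inr (Or.inl ⟨P, hP, rfl⟩))
      · have h3 := h1 _ (Or.inr (Or.inr ⟨j, rfl⟩))
        rw [aeval_gG, h2, mul_zero, add_zero] at h3
        exact h3

end Pool.Agent.Lib.MP_1e3e9c_agC
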